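import Pool.Agent.W5h68.SP.Mon

/-!
# Systems of `c` equations with at most `c + n + 1` monomials
-/

set_option autoImplicit false

open MvPolynomial

namespace Pool.Agent.W5h68.SP

section dim

variable {k : Type} [Field k] {m c : ℕ} (a : Fin c → Fin m → k)

/-- the linear form -/
noncomputable def lf (v : Fin m → k) : MvPolynomial (Fin m) k := ∑ j, C (v j) * X j

lemma lf_hom (v : Fin m → k) : (lf v).IsHomogeneous 1 := by
  apply IsHomogeneous.sum
  intro j _
  have h := (isHomogeneous_C (Fin m) (v j)).mul (isHomogeneous_X k j)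
  rwa [zero_add] at h

/-- the dimension of the zero set of independent linear forms -/
lemma lf_dim (ha : LinearIndependent k a) :
    ringKrullDim (MvPolynomial (Fin m) k ⧸ Ideal.span (Set.range fun i => lf (a i))) ≤
      ((m - c : ℕ) : WithBot ℕ∞) := by
  let W : Submodule k (Fin m → k) := Submodule.span k (Set.range a)
  have hW : Module.finrank k W = c := by
    rw [finrank_span_eq_card ha, Fintype.card_fin]
  have hV : Module.finrank k ((Fin m → k) ⧸ W) = m - c := by
    have h1 := Submodule.finrank_quotient_add_finrank W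
    rw [hW, Module.finrank_fin_fun] at h1
    omega
  let B := MvPolynomial (Fin m) k ⧸ Ideal.span (Set.range fun i => lf (a i))
  let ψ : (Fin m → k) →ₗ[k] B :=
    { toFun := fun v => Ideal.Quotient.mk _ (lf v)
      map_add' := fun v w => by
        rw [← map_add]
        congr 1
        simp only [lf, Pi.add_apply, map_add, add_mul, Finset.sum_add_distrib]
      map_smul' := fun r v => by
        rw [RingHom.id_apply]
        have h1 : lf (r • v) = r • lf v := by
          rw [lf, lf, Finset.smul_sum]
          refine Finset.sum_congr rfl fun j _ => ?_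
          rw [Pi.smul_apply, smul_eq_mul, map_mul, smul_eq_C_mul, mul_assoc]
        rw [h1]
        rfl }
  have hψ : W ≤ LinearMap.ker ψ := by
    rw [Submodule.span_le]
    rintro _ ⟨i, rfl⟩
    exact Ideal.Quotient.eq_zero_iff_mem.mpr (Ideal.subset_span ⟨i, rfl⟩)
  let ψ' : ((Fin m → k) ⧸ W) →ₗ[k] B := W.liftQ ψ hψ
  let b := Module.finBasisOfFinrankEq k ((Fin m → k) ⧸ W) hV
  let f : MvPolynomial (Fin (m - c)) k →ₐ[k] B := aeval fun j => ψ' (b j)
  have h1 : ∀ v, ψ' v ∈ f.range := by
    intro v
    rw [← b.sum_repr v, map_sum]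
    refine sum_mem fun j _ => ?_
    rw [map_smul]
    refine Subalgebra.smul_mem _ ?_ _
    exact ⟨X j, aeval_X _ _⟩
  have h2 : Function.Surjective f := by
    rw [← AlgHom.range_eq_top, eq_top_iff]
    rintro x -
    obtain ⟨p, rfl⟩ := Ideal.Quotient.mk_surjective x
    have h3 : (Ideal.Quotient.mkₐ k (Ideal.span (Set.range fun i => lf (a i)))).range ≤ f.range := by
      rw [← Algebra.map_top, ← adjoin_range_X, AlgHom.map_adjoin, Algebra.adjoin_le_iff]
      rintro _ ⟨_, ⟨j, rfl⟩, rfl⟩
      have h4 := h1 (W.mkQ (Pi.single j 1))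
      have h5 : ψ' (W.mkQ (Pi.single j 1)) = Ideal.Quotient.mk _ (X j) := by
        change ψ (Pi.single j 1) = _
        change Ideal.Quotient.mk _ (lf (Pi.single j 1)) = _
        congr 1
        rw [lf, Finset.sum_eq_single j]
        · rw [Pi.single_eq_same, map_one, one_mul]
        · intro i _ hi
          rw [Pi.single_eq_of_ne hi, map_zero, zero_mul]
        · intro h
          exact absurd (Finset.mem_univ j) h
      rw [h5] at h4
      exact h4
    exact h3 ⟨p, rfl⟩
  refine (ringKrullDim_le_of_surjective f.toRingHom h2).trans ?_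
  rw [MvPolynomial.ringKrullDim_of_isNoetherianRing, ringKrullDim_eq_zero_of_field, zero_add,
    Nat.card_eq_fintype_card, Fintype.card_fin]

end dim

section

variable {k : Type} [Field k] {Q : (A : Type) → [CommRing A] → [Algebra k A] → Prop}
  (hQ : Cl k Q) {n : ℕ} (h : ∀ (A : Type) [CommRing A] [Algebra k A] [Algebra.FiniteType k A],
    ringKrullDim A ≤ n → Q A)

include hQ h

/-- **Sparse systems**, with additional equations with two terms. -/
theorem q_sparse {σ : Type} [Finite σ] {c : ℕ} (f : Fin c → MvPolynomial σ k)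
    (hf : LinearIndependent k f) (S : Finset (σ →₀ ℕ)) (hS : ∀ i, (f i).support ⊆ S)
    (hc : S.card ≤ c + n + 1) {τ : Type} (b : τ → MvPolynomial σ k)
    (hb : ∀ t, (b t).support.card ≤ 2) :
    Q (MvPolynomial σ k ⧸ Ideal.span (Set.range f ∪ Set.range b)) := by
  classical
  let α : Fin S.card → σ →₀ ℕ := fun j => (S.equivFin.symm j).1
  let a : Fin c → Fin S.card → k := fun i j => coeff (α j) (f i)
  have h1 : ∀ i, aeval (fun l => (monomial (α l) 1 : MvPolynomial σ k)) (lf (a i)) = f i := by
    intro i
    rw [lf, map_sum]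
    have h2 : ∀ j, aeval (fun l => (monomial (α l) 1 : MvPolynomial σ k)) (C (a i j) * X j) =
        monomial (α j) (coeff (α j) (f i)) := by
      intro j
      rw [map_mul, aeval_X, ← algebraMap_eq, AlgHom.commutes, algebraMap_eq, C_mul_monomial, mul_one]
    rw [Finset.sum_congr rfl fun j _ => h2 j]
    have h3 : ∑ j, monomial (α j) (coeff (α j) (f i)) = ∑ s ∈ S, monomial s (coeff s (f i)) := by
      rw [← Finset.sum_coe_sort S]
      exact Fintype.sum_equiv S.equivFin.symm _ _ fun j => rfl
    rw [h3, ← Finset.sum_subset (hS i) (fun s _ hs => by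
      rw [notMem_support_iff.mp hs, map_zero])]
    exact (f i).support_sum_monomial_coeff
  have h2 : LinearIndependent k a := by
    rw [Fintype.linearIndependent_iff] at hf ⊢
    intro r hr
    apply hf
    have h3 : aeval (fun l => (monomial (α l) 1 : MvPolynomial σ k)) (lf (∑ i, r i • a i)) =
        ∑ i, r i • f i := by
      have h4 : lf (∑ i, r i • a i) = ∑ i, r i • lf (a i) := by
        simp only [lf, Finset.sum_apply, Pi.smul_apply, smul_eq_mul, map_sum, map_mul,
          Finset.sum_mul, Finset.smul_sum, smul_eq_C_mul]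
        rw [Finset.sum_comm]
        refine Finset.sum_congr rfl fun i _ => Finset.sum_congr rfl fun j _ => ?_
        rw [mul_assoc]
      rw [h4, map_sum]
      refine Finset.sum_congr rfl fun i _ => ?_
      rw [map_smul, h1]
    rw [← h3, hr]
    have h5 : lf (0 : Fin S.card → k) = 0 := by
      rw [lf]
      refine Finset.sum_eq_zero fun j _ => ?_
      rw [Pi.zero_apply, map_zero, zero_mul]
    rw [h5, map_zero]
  have h3 := q_monomial hQ h (fun i => lf (a i)) (fun i => ⟨1, lf_hom _⟩)
    ((lf_dim a h2).trans (by
      have h4 : S.card - c ≤ n + 1 := by omega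
      exact_mod_cast h4)) α b hb
  refine hQ.iso (Ideal.quotientEquivAlgOfEq k ?_) h3
  congr 3
  funext i
  exact h1 i

end

end Pool.Agent.W5h68.SP
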