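import Pool.Agent.W5h68.SP.Defs
import Pool.Agent.W5h68.SP.Lin
import Pool.Agent.Z125.UN.Dim2

/-!
# Systems of equations in few monomials
-/

set_option autoImplicit false

open CategoryTheory AlgebraicGeometry MvPolynomial Pool.Agent.Y116.UV Pool.Agent.Z125.UN

namespace Pool.Agent.W5h68.SP

variable {k : Type} [Field k] {sep : Prop} {P : Sch k → Prop} (hP : Bnd sep P) {n : ℕ}
  (h : ∀ (A : Type) [CommRing A] [Algebra k A] [Algebra.FiniteType k A],
    ringKrullDim A ≤ n → P (aff k A))

include hP h

theorem cones : Cones n P := by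
  intro m N r t g α b hg hd hb
  exact q_monomial (Cl.of_bnd hP) h g hg hd α b hb

theorem sparse : Sparse n P := by
  intro N c t f S b hf hS hc hb
  exact q_sparse (Cl.of_bnd hP) h f hf S hS hc b hb

end Pool.Agent.W5h68.SP
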