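import Pool.Agent.Z125.UN.MotDefs
import Pool.Agent.W5h68.SP.CycDefs

/-!
# Motives of products and of cyclic coverings
-/

set_option autoImplicit false

open CategoryTheory MonoidalCategory AlgebraicGeometry Pool.Agent.TH137.DG Pool.Agent.Y116.UV
  Pool.Agent.Z125.UN

namespace Pool.Agent.W5h68.SP

universe v u

variable {k : Type} [Field k] {C : Type u} [Category.{v} C] [MonoidalCategory C]
  [SymmetricCategory C] [Preadditive C] [Linear ℚ C] [Limits.HasZeroObject C] [HasShift C ℤ]
  [∀ n : ℤ, (shiftFunctor C n).Additive] [Pretriangulated C]

/-- Moreover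

* `tensor`: tensor products of Schur-finite objects are Schur-finite (Deligne, Mazza);
* `kunneth`: the motive with compact support of `X × Y` is the tensor product of those of `X` and `Y`
  (Voevodsky, Kelly);
* `covering`: for the finite flat covering `Spec A[s] / (s ^ d - u) → Spec A` of degree `d > 0`, `u` a
  unit, the motive with compact support of the base is a direct summand of the one of the total space
  (the composition of the flat pull-back and the proper push-forward is multiplication by `d`). -/
structure IsMotivesK (D : Motives k C) : Prop extends IsMotives D where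
  tensor : ∀ a b : C, IsSchurFinite a → IsSchurFinite b → IsSchurFinite (a ⊗ b)
  kunneth : ∀ (A B : Type) [CommRing A] [Algebra k A] [Algebra.FiniteType k A] [CommRing B]
    [Algebra k B] [Algebra.FiniteType k B],
    Nonempty (D.Mc (aff k (TensorProduct k A B)) ≅ D.Mc (aff k A) ⊗ D.Mc (aff k B))
  covering : ∀ (A : Type) [CommRing A] [Algebra k A] [Algebra.FiniteType k A] (d : ℕ) (u : A),
    0 < d → IsUnit u → ∃ (s : D.Mc (aff k A) ⟶ D.Mc (aff k (Cyc A d u)))
      (r : D.Mc (aff k (Cyc A d u)) ⟶ D.Mc (aff k A)), s ≫ r = 𝟙 _

end Pool.Agent.W5h68.SP
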