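import Pool.Agent.Y116.UV.Defs

/-!
# Systems of equations in few monomials: definitions
-/

set_option autoImplicit false

open CategoryTheory AlgebraicGeometry MvPolynomial Pool.Agent.Y116.UV

namespace Pool.Agent.W5h68.SP

/-- The closed subscheme of the affine space of dimension `N` over `k` defined by the equations
`s = 0`. -/
noncomputable def zeros (k : Type) [Field k] (N : ℕ) (s : Set (MvPolynomial (Fin N) k)) : Sch k :=
  aff k (MvPolynomial (Fin N) k ⧸ Ideal.span s)

/-- The polynomial `g(M_1, …, M_m)` for the monomials `M_l = x ^ (α l)` in the variables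
`x_1, …, x_N`. -/
noncomputable def atMonomials {k : Type} [Field k] {m N : ℕ} (α : Fin m → Fin N →₀ ℕ)
    (g : MvPolynomial (Fin m) k) : MvPolynomial (Fin N) k :=
  aeval (fun l => monomial (α l) 1) g

/-- `P` is true for the inverse images of the cones of dimension at most `n + 1` under the monomial maps
between affine spaces, and for their intersections with the schemes defined by equations with at most two
terms: for all `m`, `N`, all forms `g_i` in `m` variables with a common zero scheme of dimension at most
`n + 1`, all monomials `M_1, …, M_m` in `N` variables and all polynomials `b_j` with at most two terms,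
`P` is true for the closed subscheme `g_i(M_1, …, M_m) = 0`, `b_j = 0` of the affine space of
dimension `N`. -/
def Cones {k : Type} [Field k] (n : ℕ) (P : Sch k → Prop) : Prop :=
  ∀ (m N r t : ℕ) (g : Fin r → MvPolynomial (Fin m) k) (α : Fin m → Fin N →₀ ℕ)
    (b : Fin t → MvPolynomial (Fin N) k), (∀ i, ∃ d, (g i).IsHomogeneous d) →
    ringKrullDim (MvPolynomial (Fin m) k ⧸ Ideal.span (Set.range g)) ≤ n + 1 →
    (∀ j, (b j).support.card ≤ 2) →
    P (zeros k N ((Set.range fun i => atMonomials α (g i)) ∪ Set.range b))

/-- `P` is true for the closed subschemes of the affine spaces given by `c` linearly independent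
polynomials `f_i` which have together at most `c + n + 1` monomials, and any number of polynomials `b_j`
with at most two terms. -/
def Sparse {k : Type} [Field k] (n : ℕ) (P : Sch k → Prop) : Prop :=
  ∀ (N c t : ℕ) (f : Fin c → MvPolynomial (Fin N) k) (S : Finset (Fin N →₀ ℕ))
    (b : Fin t → MvPolynomial (Fin N) k), LinearIndependent k f → (∀ i, (f i).support ⊆ S) →
    S.card ≤ c + n + 1 → (∀ j, (b j).support.card ≤ 2) →
    P (zeros k N (Set.range f ∪ Set.range b))

end Pool.Agent.W5h68.SP
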