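import Pool.Agent.W5h68.SP.Tor

/-!
# Additional equations with two terms on tori
-/

set_option autoImplicit false

open Pool.Agent.Z125.UN Pool.Agent.Y116.UV

namespace Pool.Agent.W5h68.SP

section

variable {k : Type} [Field k] {M : Type} [AddCommGroup M]

/-- an element with at most two terms -/
def Bin (x : AddMonoidAlgebra k M) : Prop :=
  ∃ (c d : k) (β γ : M), x = algebraMap k _ c * gm k β + algebraMap k _ d * gm k γ

/-- an element with at most two terms is zero, a unit or a unit multiple of `[β] - r` with `r ≠ 0` -/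
lemma bin_cases {x : AddMonoidAlgebra k M} (h : Bin x) : x = 0 ∨ IsUnit x ∨
    ∃ (u : AddMonoidAlgebra k M) (β : M) (r : k), IsUnit u ∧ r ≠ 0 ∧
      x = u * (gm k β - algebraMap k _ r) := by
  obtain ⟨c, d, β, γ, rfl⟩ := h
  have hu : ∀ (c : k) (β : M), c ≠ 0 → IsUnit (algebraMap k (AddMonoidAlgebra k M) c * gm k β) := by
    intro c β hc
    exact ((isUnit_iff_ne_zero.mpr hc).map _).mul ⟨(gu k β).toMul, rfl⟩
  by_cases hc : c = 0
  · by_cases hd : d = 0
    · left
      rw [hc, hd, map_zero, zero_mul, zero_mul, add_zero]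
    · right; left
      rw [hc, map_zero, zero_mul, zero_add]
      exact hu d γ hd
  · by_cases hd : d = 0
    · right; left
      rw [hd, map_zero, zero_mul, add_zero]
      exact hu c β hc
    · right; right
      refine ⟨algebraMap k _ c * gm k γ, β - γ, -(d / c), hu c γ hc,
        neg_ne_zero.mpr (div_ne_zero hd hc), ?_⟩
      have h1 : gm k β = gm k γ * gm k (β - γ) := by
        rw [← gm_add]
        congr 1
        abel
      have h2 : algebraMap k (AddMonoidAlgebra k M) d =
          algebraMap k _ c * algebraMap k _ (d / c) := by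
        rw [← map_mul, mul_div_cancel₀ _ hc]
      rw [h1, h2, map_neg]
      ring

variable {Q : (A : Type) → [CommRing A] → [Algebra k A] → Prop}
  (hQ : Cl k Q) {L : Type} [AddCommGroup L] (S : Set (AddMonoidAlgebra k L)) {n : ℕ}

include hQ in
/-- Closed subschemes of tori, with additional equations with two terms. -/
theorem cl_torus_bin (h : ∀ (A : Type) [CommRing A] [Algebra k A] [Algebra.FiniteType k A],
    ringKrullDim A ≤ n → Q A) (hS : ringKrullDim (AddMonoidAlgebra k L ⧸ Ideal.span S) ≤ n)
    [Module.Finite ℤ M] (ι : L →+ M) {τ : Type} (b : τ → AddMonoidAlgebra k M)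
    (hb : ∀ t, Bin (b t)) :
    Q (AddMonoidAlgebra k M ⧸ Ideal.span (gmap k ι '' S ∪ Set.range b)) := by
  have hft := ft_ga k M
  by_cases hu : ∃ t, IsUnit (b t)
  · obtain ⟨t, ht⟩ := hu
    refine hQ.zero ?_
    rw [Ideal.Quotient.subsingleton_iff]
    exact Ideal.eq_top_of_isUnit_mem _ (Ideal.subset_span (Or.inr ⟨t, rfl⟩)) ht
  · push Not at hu
    let T : Set τ := {t | b t ≠ 0}
    have h1 : ∀ t : T, ∃ (u : AddMonoidAlgebra k M) (β : M) (r : k), IsUnit u ∧ r ≠ 0 ∧
        b t = u * (gm k β - algebraMap k _ r) := by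
      rintro ⟨t, ht⟩
      rcases bin_cases (hb t) with h | h | h
      · exact absurd h ht
      · exact absurd h (hu t)
      · exact h
    choose u β r hu' hr hbt using h1
    let L' := L × (T →₀ ℤ)
    let i1 : L →+ L' := AddMonoidHom.inl L (T →₀ ℤ)
    let i2 : (T →₀ ℤ) →+ L' := AddMonoidHom.inr L (T →₀ ℤ)
    let e : T → AddMonoidAlgebra k L' := fun t => gm k (i2 (Finsupp.single t 1)) - algebraMap k _ (r t)
    let S' : Set (AddMonoidAlgebra k L') := gmap k i1 '' S ∪ Set.range e
    let θ : (T →₀ ℤ) →+ M := Finsupp.liftAddHom fun t => zmultiplesHom M (β t)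
    have hθ : ∀ t : T, θ (Finsupp.single t 1) = β t := by
      intro t
      change Finsupp.liftAddHom _ _ = _
      rw [Finsupp.liftAddHom_apply_single]
      exact one_zsmul _
    let ι' : L' →+ M := ι.coprod θ
    have hι1 : ∀ x, gmap k ι' (gmap k i1 x) = gmap k ι x := by
      intro x
      have h2 : (gmap k ι').comp (gmap k i1) = gmap k ι := by
        apply ga_ext
        intro l
        rw [AlgHom.comp_apply, gmap_gm, gmap_gm, gmap_gm]
        change gm k (ι l + θ 0) = _
        rw [map_zero, add_zero]
      exact congrArg (fun f : AddMonoidAlgebra k L →ₐ[k] AddMonoidAlgebra k M => f x) h2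
    have hι2 : ∀ t, gmap k ι' (e t) = gm k (β t) - algebraMap k _ (r t) := by
      intro t
      change gmap k ι' (gm k (i2 (Finsupp.single t 1)) - algebraMap k _ (r t)) = _
      rw [map_sub, gmap_gm, AlgHom.commutes]
      change gm k (ι 0 + θ (Finsupp.single t 1)) - _ = _
      rw [map_zero, zero_add, hθ]
    -- the dimension
    have hdim : ringKrullDim (AddMonoidAlgebra k L' ⧸ Ideal.span S') ≤ n := by
      let q : AddMonoidAlgebra k L' →ₐ[k] (AddMonoidAlgebra k L' ⧸ Ideal.span S') :=
        Ideal.Quotient.mkₐ k _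
      have hq : ∀ x ∈ S', q x = 0 := fun x hx =>
        Ideal.Quotient.eq_zero_iff_mem.mpr (Ideal.subset_span hx)
      let f : (AddMonoidAlgebra k L ⧸ Ideal.span S) →ₐ[k] (AddMonoidAlgebra k L' ⧸ Ideal.span S') :=
        Ideal.Quotient.liftₐ _ (q.comp (gmap k i1)) (by
          have h2 : Ideal.span S ≤ RingHom.ker (q.comp (gmap k i1)) := by
            rw [Ideal.span_le]
            intro s hs
            exact hq _ (Or.inl ⟨s, hs, rfl⟩)
          exact fun a ha => h2 ha)
      have hf : ∀ x, f (Ideal.Quotient.mk _ x) = q (gmap k i1 x) := fun x => rfl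
      have h3 : ∀ v : T →₀ ℤ, ∃ c : k, q (gm k (i2 v)) = algebraMap k _ c := by
        intro v
        induction v using Finsupp.induction_linear with
        | zero => exact ⟨1, by rw [map_zero, gm_zero, map_one, map_one]⟩
        | add v w hv hw =>
          obtain ⟨c, hc⟩ := hv
          obtain ⟨d, hd⟩ := hw
          exact ⟨c * d, by rw [map_add, gm_add, map_mul, hc, hd, map_mul]⟩
        | single t z =>
          have h4 : q (gm k (i2 (Finsupp.single t 1))) = algebraMap k _ (r t) := by
            have h5 := hq (e t) (Or.inr ⟨t, rfl⟩)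
            change q (gm k (i2 (Finsupp.single t 1)) - algebraMap k _ (r t)) = 0 at h5
            rw [map_sub, AlgHom.commutes, sub_eq_zero] at h5
            exact h5
          have h5 : Finsupp.single t z = z • Finsupp.single t (1 : ℤ) := by
            rw [Finsupp.smul_single, smul_eq_mul, mul_one]
          refine ⟨r t ^ z, ?_⟩
          let v1 : (AddMonoidAlgebra k L' ⧸ Ideal.span S')ˣ :=
            Units.map (q : AddMonoidAlgebra k L' →* _) (gu k (i2 (Finsupp.single t 1))).toMul
          let v2 : (AddMonoidAlgebra k L' ⧸ Ideal.span S')ˣ :=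
            Units.map (algebraMap k (AddMonoidAlgebra k L' ⧸ Ideal.span S') : k →* _)
              (Units.mk0 (r t) (hr t))
          have h6 : v1 = v2 := Units.ext h4
          have h7 : q (gm k (i2 (Finsupp.single t z))) = ((v1 ^ z : (_)ˣ) : _) := by
            rw [← map_zpow, h5, map_zsmul, ← gu_val, map_zsmul]
            rfl
          have h8 : algebraMap k (AddMonoidAlgebra k L' ⧸ Ideal.span S') (r t ^ z) =
              ((v2 ^ z : (_)ˣ) : _) := by
            rw [← map_zpow]
            change _ = algebraMap k _ (((Units.mk0 (r t) (hr t)) ^ z : kˣ) : k)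
            rw [Units.val_zpow_eq_zpow_val, Units.val_mk0]
          rw [h7, h8, h6]
      refine (ringKrullDim_le_of_surjective f.toRingHom ?_).trans hS
      intro x
      obtain ⟨x, rfl⟩ := Ideal.Quotient.mk_surjective x
      change ∃ a, f a = q x
      induction x using ga_induction with
      | h0 => exact ⟨0, by rw [map_zero, map_zero]⟩
      | h1 a v =>
        obtain ⟨l, v⟩ := v
        obtain ⟨c, hc⟩ := h3 v
        refine ⟨Ideal.Quotient.mk _ (algebraMap k _ (a * c) * gm k l), ?_⟩
        have h4 : gm k ((l, v) : L') = gmap k i1 (gm k l) * gm k (i2 v) := by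
          rw [gmap_gm, ← gm_add]
          congr 1
          change (l, v) = (l + 0, 0 + v)
          rw [add_zero, zero_add]
        rw [hf, h4]
        simp only [map_mul, AlgHom.commutes, hc]
        ring
      | h2 x y hx hy =>
        obtain ⟨a, ha⟩ := hx
        obtain ⟨c, hc⟩ := hy
        exact ⟨a + c, by rw [map_add, map_add, ha, hc]⟩
    -- the two ideals
    have h2 : Ideal.span (gmap k ι' '' S') = Ideal.span (gmap k ι '' S ∪ Set.range b) := by
      apply le_antisymm
      · rw [Ideal.span_le]
        rintro _ ⟨_, ⟨s, hs, rfl⟩ | ⟨t, rfl⟩, rfl⟩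
        · rw [hι1]
          exact Ideal.subset_span (Or.inl ⟨s, hs, rfl⟩)
        · rw [hι2]
          have h3 : b t ∈ Ideal.span (gmap k ι '' S ∪ Set.range b) :=
            Ideal.subset_span (Or.inr ⟨t, rfl⟩)
          rw [hbt] at h3
          exact (Ideal.unit_mul_mem_iff_mem _ (hu' t)).mp h3
      · rw [Ideal.span_le]
        rintro _ (⟨s, hs, rfl⟩ | ⟨t, rfl⟩)
        · rw [← hι1]
          exact Ideal.subset_span ⟨_, Or.inl ⟨s, hs, rfl⟩, rfl⟩
        · by_cases ht : b t = 0
          · rw [ht]
            exact Ideal.zero_mem _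
          · have h3 := hbt ⟨t, ht⟩
            change b t = _ at h3
            rw [h3, ← hι2]
            exact Ideal.mul_mem_left _ _ (Ideal.subset_span ⟨_, Or.inr ⟨_, rfl⟩, rfl⟩)
    exact hQ.iso (Ideal.quotientEquivAlgOfEq k h2) (cl_torus hQ S' h hdim _ M rfl ι')

end

end Pool.Agent.W5h68.SP
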