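import Mathlib

/-!
# Dimensions: quasi-localizations, integral homomorphisms, cones
-/

set_option autoImplicit false

open MvPolynomial

namespace Pool.Agent.W5h68.SP

/-- the dimension of a ring all of whose elements are, up to units from `C`, in the image of `C` -/
lemma dim_quasi {C D : Type} [CommRing C] [CommRing D] (φ : C →+* D)
    (h : ∀ d : D, ∃ c c' : C, IsUnit (φ c) ∧ φ c * d = φ c') : ringKrullDim D ≤ ringKrullDim C := by
  refine Order.krullDim_le_of_strictMono (PrimeSpectrum.comap φ) ?_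
  intro p q hpq
  refine lt_of_le_of_ne (fun x hx => hpq.le hx) fun he => hpq.not_ge ?_
  intro d hd
  obtain ⟨c, c', hc, e⟩ := h d
  have h1 : c' ∈ (PrimeSpectrum.comap φ q).asIdeal := by
    change φ c' ∈ q.asIdeal
    rw [← e]
    exact q.asIdeal.mul_mem_left _ hd
  rw [← he] at h1
  have h2 : φ c' ∈ p.asIdeal := h1
  rw [← e] at h2
  exact (p.isPrime.mem_or_mem h2).resolve_left fun h3 =>
    p.isPrime.ne_top (Ideal.eq_top_of_isUnit_mem _ h3 hc)

/-- the dimension of the target of an integral homomorphism -/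
lemma dim_integral {C D : Type} [CommRing C] [CommRing D] (φ : C →+* D) (h : φ.IsIntegral) :
    ringKrullDim D ≤ ringKrullDim C := by
  let _ : Algebra C D := φ.toAlgebra
  refine Order.krullDim_le_of_strictMono (PrimeSpectrum.comap φ) ?_
  intro p q hpq
  obtain ⟨x, hx, hx'⟩ := Set.exists_of_ssubset (show (p.asIdeal : Set D) ⊂ q.asIdeal from hpq)
  exact Ideal.comap_lt_comap_of_integral_mem_sdiff (R := C) (le_of_lt hpq) ⟨hx, hx'⟩ (h x)

section cone

variable {k : Type} [Field k] {m : ℕ} {ι : Type} (g : ι → MvPolynomial (Fin m) k)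

/-- homogeneous polynomials at multiples -/
lemma aeval_hom {B : Type} [CommRing B] [Algebra k B] {σ : Type} {p : MvPolynomial σ k} {d : ℕ}
    (hp : p.IsHomogeneous d) (t : B) (y : σ → B) :
    aeval (fun j => t * y j) p = t ^ d * aeval y p := by
  rw [aeval_def, aeval_def, eval₂_eq, eval₂_eq, Finset.mul_sum]
  refine Finset.sum_congr rfl fun s hs => ?_
  have h1 : ∑ i ∈ s.support, s i = d := by
    have h2 := hp (mem_support_iff.mp hs)
    rwa [Finsupp.weight_apply, Finsupp.sum, Finset.sum_congr rfl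
      (fun i _ => by rw [Pi.one_apply, smul_eq_mul, mul_one])] at h2
  have h3 : ∏ i ∈ s.support, (t * y i) ^ s i = t ^ d * ∏ i ∈ s.support, y i ^ s i := by
    rw [Finset.prod_congr rfl fun i _ => mul_pow t (y i) (s i), Finset.prod_mul_distrib,
      Finset.prod_pow_eq_pow_sum, h1]
  rw [h3]
  ring

/-- the affine part of a cone -/
abbrev Chart (i₀ : Fin m) : Type :=
  MvPolynomial (Fin m) k ⧸ Ideal.span (insert (X i₀ - 1) (Set.range g))

variable {g}

/-- the coordinates -/
noncomputable def cc (g : ι → MvPolynomial (Fin m) k) (i₀ : Fin m) (j : Fin m) : Chart g i₀ :=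
  Ideal.Quotient.mk _ (X j)

lemma cc_rel (i₀ : Fin m) (i : ι) : aeval (cc g i₀) (g i) = 0 := by
  have h : aeval (cc g i₀) = Ideal.Quotient.mkₐ k (Ideal.span (insert (X i₀ - 1) (Set.range g))) := by
    apply MvPolynomial.algHom_ext
    intro j
    rw [aeval_X]
    rfl
  rw [h]
  exact Ideal.Quotient.eq_zero_iff_mem.mpr (Ideal.subset_span (Set.mem_insert_of_mem _ ⟨i, rfl⟩))

lemma cc_one (i₀ : Fin m) : cc g i₀ i₀ = 1 := by
  have h : Ideal.Quotient.mk (Ideal.span (insert (X i₀ - 1) (Set.range g))) (X i₀ - 1) = 0 :=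
    Ideal.Quotient.eq_zero_iff_mem.mpr (Ideal.subset_span (Set.mem_insert _ _))
  rw [map_sub, map_one, sub_eq_zero] at h
  exact h

lemma t_sub_one {A : Type} [CommRing A] :
    (LaurentPolynomial.T 1 - 1 : LaurentPolynomial A) ∈ nonZeroDivisors (LaurentPolynomial A) := by
  have h1 : (Polynomial.X - Polynomial.C (1 : A)) ∈ nonZeroDivisors (Polynomial A) :=
    (Polynomial.monic_X_sub_C 1).mem_nonZeroDivisors
  have h2 := IsLocalization.map_nonZeroDivisors_le (Submonoid.powers (Polynomial.X : Polynomial A))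
    (LaurentPolynomial A) (Submonoid.mem_map_of_mem _ h1)
  have h3 : (algebraMap (Polynomial A) (LaurentPolynomial A)) (Polynomial.X - Polynomial.C (1 : A)) =
      LaurentPolynomial.T 1 - 1 := by
    rw [LaurentPolynomial.algebraMap_eq_toLaurent, map_sub, Polynomial.toLaurent_X,
      Polynomial.toLaurent_C, map_one]
  rw [← h3]
  exact h2

/-- The affine part of a cone has smaller dimension. -/
lemma dim_chart (hg : ∀ i, ∃ d, (g i).IsHomogeneous d) (i₀ : Fin m) :
    ringKrullDim (Chart g i₀) + 1 ≤ ringKrullDim (MvPolynomial (Fin m) k ⧸ Ideal.span (Set.range g)) := by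
  let L := LaurentPolynomial (Chart g i₀)
  -- the homomorphism to the Laurent polynomials
  let y : Fin m → L := fun j => LaurentPolynomial.T 1 * LaurentPolynomial.C (cc g i₀ j)
  have hy : ∀ i, aeval y (g i) = 0 := by
    intro i
    obtain ⟨d, hd⟩ := hg i
    refine (aeval_hom hd (LaurentPolynomial.T 1 : L)
      (fun j => LaurentPolynomial.C (cc g i₀ j))).trans ?_
    have h1 : aeval (fun j => (LaurentPolynomial.C (cc g i₀ j) : L)) (g i) =
        (IsScalarTower.toAlgHom k (Chart g i₀) L) (aeval (cc g i₀) (g i)) := by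
      rw [← AlgHom.comp_apply]
      congr 1
      apply MvPolynomial.algHom_ext
      intro j
      rw [aeval_X, AlgHom.comp_apply, aeval_X]
      rfl
    rw [h1, cc_rel, map_zero, mul_zero]
  let ψ : (MvPolynomial (Fin m) k ⧸ Ideal.span (Set.range g)) →ₐ[k] L :=
    Ideal.Quotient.liftₐ _ (aeval y) (by
      have h1 : Ideal.span (Set.range g) ≤ RingHom.ker (aeval y : MvPolynomial (Fin m) k →ₐ[k] L) := by
        rw [Ideal.span_le]
        rintro _ ⟨i, rfl⟩
        exact hy i
      exact fun a ha => h1 ha)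
  have hψ : ∀ p : MvPolynomial (Fin m) k, ψ (Ideal.Quotient.mk _ p) = aeval y p := fun p => rfl
  have hT : ∀ n : ℕ, ψ (Ideal.Quotient.mk _ (X i₀ ^ n)) = LaurentPolynomial.T n := by
    intro n
    rw [hψ, map_pow, aeval_X]
    change (LaurentPolynomial.T 1 * LaurentPolynomial.C (cc g i₀ i₀)) ^ n = _
    rw [cc_one, map_one, mul_one, LaurentPolynomial.T_pow, mul_one]
  -- the elements of the form `C a * T n`
  have hmon : ∀ (s : Fin m →₀ ℕ) (a : k) (n : ℤ), ∃ N : ℕ, ∀ N' ≥ N, ∃ e,
      LaurentPolynomial.T N' * (LaurentPolynomial.C (Ideal.Quotient.mk _ (monomial s a)) *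
        LaurentPolynomial.T n : L) = ψ e := by
    intro s a n
    refine ⟨(s.sum fun _ x => x) + n.natAbs, fun N' hN' => ?_⟩
    obtain ⟨q, hq⟩ : ∃ q : ℕ, (N' : ℤ) + n = (s.sum fun _ x => x : ℕ) + q := by
      refine ⟨((N' : ℤ) + n - (s.sum fun _ x => x : ℕ)).toNat, ?_⟩
      have h1 : ((s.sum fun _ x => x : ℕ) : ℤ) + n.natAbs ≤ N' := by exact_mod_cast hN'
      have h2 : -(n.natAbs : ℤ) ≤ n := by omega
      omega
    refine ⟨Ideal.Quotient.mk _ (monomial s a * X i₀ ^ q), ?_⟩
    rw [map_mul, map_mul, hT, hψ]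
    have h1 : aeval y (monomial s a) = (LaurentPolynomial.T ((s.sum fun _ x => x : ℕ) : ℤ) : L) *
        LaurentPolynomial.C (Ideal.Quotient.mk _ (monomial s a)) := by
      have h2 : (monomial s a : MvPolynomial (Fin m) k).IsHomogeneous (s.sum fun _ x => x) := by
        apply isHomogeneous_monomial
        rw [Finsupp.degree]
        rfl
      refine (aeval_hom h2 (LaurentPolynomial.T 1 : L)
        (fun j => LaurentPolynomial.C (cc g i₀ j))).trans ?_
      rw [LaurentPolynomial.T_pow, mul_one]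
      congr 1
      have h3 : (aeval fun j => (LaurentPolynomial.C (cc g i₀ j) : L)) =
          (IsScalarTower.toAlgHom k (Chart g i₀) L).comp
            (Ideal.Quotient.mkₐ k (Ideal.span (insert (X i₀ - 1) (Set.range g)))) := by
        apply MvPolynomial.algHom_ext
        intro j
        rw [aeval_X]
        rfl
      rw [h3]
      rfl
    have h2 : (LaurentPolynomial.T N' * LaurentPolynomial.T n : L) =
        LaurentPolynomial.T ((s.sum fun _ x => x : ℕ) : ℤ) * LaurentPolynomial.T q := by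
      rw [← LaurentPolynomial.T_add, ← LaurentPolynomial.T_add, hq]
    rw [h1]
    linear_combination (LaurentPolynomial.C (Ideal.Quotient.mk _ (monomial s a)) : L) * h2
  have hall : ∀ d : L, ∃ N : ℕ, ∀ N' ≥ N, ∃ e, LaurentPolynomial.T N' * d = ψ e := by
    intro d
    induction d using LaurentPolynomial.induction_on' with
    | add p q hp hq =>
      obtain ⟨N1, h1⟩ := hp
      obtain ⟨N2, h2⟩ := hq
      refine ⟨max N1 N2, fun N' hN' => ?_⟩
      obtain ⟨e1, he1⟩ := h1 N' (le_trans (le_max_left _ _) hN')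
      obtain ⟨e2, he2⟩ := h2 N' (le_trans (le_max_right _ _) hN')
      exact ⟨e1 + e2, by rw [mul_add, he1, he2, map_add]⟩
    | C_mul_T n a =>
      obtain ⟨p, rfl⟩ := Ideal.Quotient.mk_surjective a
      induction p using MvPolynomial.induction_on' with
      | monomial s a => exact hmon s a n
      | add p q hp hq =>
        obtain ⟨N1, h1⟩ := hp
        obtain ⟨N2, h2⟩ := hq
        refine ⟨max N1 N2, fun N' hN' => ?_⟩
        obtain ⟨e1, he1⟩ := h1 N' (le_trans (le_max_left _ _) hN')
        obtain ⟨e2, he2⟩ := h2 N' (le_trans (le_max_right _ _) hN')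
        exact ⟨e1 + e2, by rw [map_add, map_add, add_mul, mul_add, he1, he2, map_add]⟩
  have h1 : ringKrullDim L ≤ ringKrullDim (MvPolynomial (Fin m) k ⧸ Ideal.span (Set.range g)) := by
    refine dim_quasi (C := MvPolynomial (Fin m) k ⧸ Ideal.span (Set.range g)) (D := L)
      ψ.toRingHom fun d => ?_
    obtain ⟨N, hN⟩ := hall d
    obtain ⟨e, he⟩ := hN N le_rfl
    refine ⟨Ideal.Quotient.mk _ (X i₀ ^ N), e, ?_, ?_⟩
    · change IsUnit (ψ _)
      rw [hT]
      exact LaurentPolynomial.isUnit_T _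
    · change ψ _ * d = ψ e
      rw [hT, he]
  refine le_trans ?_ h1
  refine ringKrullDim_succ_le_of_surjective (LaurentPolynomial.eval₂ (RingHom.id _) 1) ?_
    (t_sub_one (A := Chart g i₀)) ?_
  · intro a
    exact ⟨LaurentPolynomial.C a, by rw [LaurentPolynomial.eval₂_C]; rfl⟩
  · rw [map_sub, map_one, LaurentPolynomial.eval₂_T]
    simp

end cone

end Pool.Agent.W5h68.SP
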