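import Pool.Agent.W5h68.SP.Ev
import Pool.Agent.W5h68.SP.CycDefs

/-!
# The fibre products of polynomial maps: cyclic coverings, torus actions, products
-/

set_option autoImplicit false

open MvPolynomial TensorProduct

namespace Pool.Agent.W5h68.SP

section cyc

variable {k : Type} [Field k] {A : Type} [CommRing A] [Algebra k A] (d : ℕ) (u : A)

/-- the structure over `A` -/
noncomputable def cycA : A →ₐ[k] Cyc A d u :=
  (Ideal.Quotient.mkₐ k _).comp (IsScalarTower.toAlgHom k A (Polynomial A))

/-- the root -/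
noncomputable def cycs : Cyc A d u := Ideal.Quotient.mk _ Polynomial.X

lemma cyc_rel : cycs d u ^ d = cycA (k := k) d u u := by
  have h : (Ideal.Quotient.mk (Ideal.span {(Polynomial.X ^ d - Polynomial.C u : Polynomial A)}))
      (Polynomial.X ^ d - Polynomial.C u) = 0 :=
    Ideal.Quotient.eq_zero_iff_mem.mpr (Ideal.mem_span_singleton_self _)
  rw [map_sub, map_pow, sub_eq_zero] at h
  exact h

variable {d u} {D : Type} [CommRing D] [Algebra k D]

lemma cyc_lift (φ : A →ₐ[k] D) (s : D) (h : s ^ d = φ u) :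
    ∃ F : Cyc A d u →ₐ[k] D, (∀ a, F (cycA (k := k) d u a) = φ a) ∧ F (cycs d u) = s := by
  let F0 : Polynomial A →ₐ[k] D := { Polynomial.eval₂RingHom (φ : A →+* D) s with
    commutes' := fun r => by
      change Polynomial.eval₂ (φ : A →+* D) s (Polynomial.C (algebraMap k A r)) = _
      rw [Polynomial.eval₂_C]
      exact φ.commutes r }
  have hF0 : Ideal.span {(Polynomial.X ^ d - Polynomial.C u : Polynomial A)} ≤ RingHom.ker F0 := by
    rw [Ideal.span_le, Set.singleton_subset_iff]
    change Polynomial.eval₂ (φ : A →+* D) s (Polynomial.X ^ d - Polynomial.C u) = 0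
    rw [Polynomial.eval₂_sub, Polynomial.eval₂_X_pow, Polynomial.eval₂_C]
    change s ^ d - φ u = 0
    rw [h, sub_self]
  refine ⟨Ideal.Quotient.liftₐ _ F0 (fun a ha => hF0 ha), ?_, ?_⟩
  · intro a
    change Polynomial.eval₂ (φ : A →+* D) s (Polynomial.C a) = φ a
    rw [Polynomial.eval₂_C]
    rfl
  · change Polynomial.eval₂ (φ : A →+* D) s Polynomial.X = s
    rw [Polynomial.eval₂_X]

lemma cyc_ext {g g' : Cyc A d u →ₐ[k] D}
    (h1 : ∀ a, g (cycA (k := k) d u a) = g' (cycA (k := k) d u a))
    (h2 : g (cycs d u) = g' (cycs d u)) : g = g' := by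
  apply Ideal.Quotient.algHom_ext
  apply AlgHom.coe_ringHom_injective
  apply Polynomial.ringHom_ext
  · exact h1
  · exact h2

instance [Algebra.FiniteType k A] : Algebra.FiniteType k (Cyc A d u) := by
  have : Algebra.FiniteType k (Polynomial A) :=
    Algebra.FiniteType.trans (S := A) inferInstance inferInstance
  infer_instance

end cyc

section

variable {k : Type} [Field k] {σ ι : Type} {f : ι → MvPolynomial σ k}
  {B : Type} [CommRing B] [Algebra k B] {b : ι → B}

/-- the fibre product over a cyclic covering -/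
lemma ev_cyc (d : ℕ) (u : B) : Nonempty (Ev f (Cyc B d u) (fun i => cycA (k := k) d u (b i)) ≃ₐ[k]
    Cyc (Ev f B b) d (evB f b u)) := by
  let u' : Ev f B b := evB f b u
  let q : B →ₐ[k] Cyc B d u := cycA d u
  let π : Ev f B b →ₐ[k] Cyc (Ev f B b) d u' := cycA d u'
  obtain ⟨e, he1, he2⟩ := cyc_lift (d := d) (u := u) (π.comp (evB f b)) (cycs d u')
    (cyc_rel (k := k) d u')
  let b' : ι → Cyc B d u := fun i => q (b i)
  obtain ⟨G0, hG1, hG2⟩ := ev_lift (f := f) (b := b) ((evB f b').comp q) (evx f b') (ev_rel f b')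
  obtain ⟨G, hG3, hG4⟩ := cyc_lift (d := d) (u := u') G0 (evB f b' (cycs d u)) (by
    rw [← map_pow, cyc_rel (k := k), hG1]
    rfl)
  refine ev_iso (b := b') e (fun v => π (evx f b v)) ?_ G ?_ ?_ ?_
  · intro i
    rw [ev_aeval π, ev_rel]
    exact (he1 (b i)).symm
  · intro a
    have h : G.comp e = evB f b' := by
      apply cyc_ext
      · intro a
        rw [AlgHom.comp_apply, he1]
        change G (π (evB f b a)) = evB f b' (q a)
        rw [hG3, hG1]
        rfl
      · rw [AlgHom.comp_apply, he2, hG4]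
    exact congrArg (fun φ : Cyc B d u →ₐ[k] Ev f _ b' => φ a) h
  · intro v
    rw [hG3, hG2]
  · intro φ h1 h2 z
    have h3 : φ = AlgHom.id k _ := by
      apply cyc_ext
      · have h4 : φ.comp π = π := by
          apply ev_ext
          · intro a
            have h5 : e (q a) = π (evB f b a) := he1 a
            rw [AlgHom.comp_apply, ← h5, h1]
          · exact h2
        intro a
        exact congrArg (fun ψ : Ev f B b →ₐ[k] _ => ψ a) h4
      · rw [← he2, h1]
        rfl
    rw [h3]
    rfl

open Classical in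
/-- The tuple `f` is semi-invariant under a torus: for every index `i` and every unit `s` of a
`k`-algebra `B` there is an automorphism of the affine space over `B` which multiplies `f_i` with
`s ^ d_i` and does not change the other members. -/
def Multi (f : ι → MvPolynomial σ k) (d : ι → ℕ) : Prop :=
  ∀ (B : Type) [CommRing B] [Algebra k B] (s : Bˣ) (i : ι),
    ∃ φ : MvPolynomial σ B ≃ₐ[B] MvPolynomial σ B, ∀ j,
      φ (MvPolynomial.map (algebraMap k B) (f j)) =
        C (if j = i then (s : B) ^ d i else 1) * MvPolynomial.map (algebraMap k B) (f j)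

open Classical in
/-- the torus action -/
lemma ev_twist {d : ι → ℕ} (hf : Multi f d) (i₀ : ι) (s : Bˣ)
    (hs : b i₀ = (s : B) ^ d i₀) : Nonempty (Ev f B b ≃ₐ[k] Ev f B (Function.update b i₀ 1)) := by
  let b' : ι → B := Function.update b i₀ 1
  obtain ⟨φ, hφ⟩ := hf B s i₀
  let c : ι → B := fun j => if j = i₀ then (s : B) ^ d i₀ else 1
  have hc : ∀ j, IsUnit (c j) := by
    intro j
    change IsUnit (if j = i₀ then (s : B) ^ d i₀ else 1)
    split_ifs
    · exact s.isUnit.pow _
    · exact isUnit_one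
  have hcb : ∀ j, c j * b' j = b j := by
    intro j
    change (if j = i₀ then (s : B) ^ d i₀ else 1) * Function.update b i₀ 1 j = b j
    by_cases hj : j = i₀
    · subst hj
      rw [if_pos rfl, Function.update_self, mul_one, hs]
    · rw [if_neg hj, Function.update_of_ne hj, one_mul]
  have h1 : ∀ j, φ (MvPolynomial.map (algebraMap k B) (f j) - C (b j)) =
      C (c j) * (MvPolynomial.map (algebraMap k B) (f j) - C (b' j)) := by
    intro j
    have h2 : φ (C (b j)) = C (b j) := φ.commutes (b j)
    rw [map_sub, hφ, h2, mul_sub, ← C_mul, hcb]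
  have h2 : EvI f B b' = (EvI f B b).map ((φ.restrictScalars k : MvPolynomial σ B ≃ₐ[k] _) :
      MvPolynomial σ B →+* MvPolynomial σ B) := by
    rw [EvI, EvI, Ideal.map_span]
    apply le_antisymm
    · rw [Ideal.span_le]
      rintro _ ⟨j, rfl⟩
      have h3 : φ (MvPolynomial.map (algebraMap k B) (f j) - C (b j)) ∈ Ideal.span
          (((φ.restrictScalars k : MvPolynomial σ B ≃ₐ[k] _) : MvPolynomial σ B →+* _) ''
            Set.range fun i => MvPolynomial.map (algebraMap k B) (f i) - C (b i)) :=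
        Ideal.subset_span ⟨_, ⟨j, rfl⟩, rfl⟩
      rw [h1] at h3
      exact (Ideal.unit_mul_mem_iff_mem _ ((hc j).map C)).mp h3
    · rw [Ideal.span_le]
      rintro _ ⟨_, ⟨j, rfl⟩, rfl⟩
      change φ (MvPolynomial.map (algebraMap k B) (f j) - C (b j)) ∈ _
      rw [h1]
      exact Ideal.mul_mem_left _ _ (Ideal.subset_span ⟨j, rfl⟩)
  exact ⟨Ideal.quotientEquivAlg (EvI f B b) (EvI f B b') (φ.restrictScalars k) h2⟩

/-- the fibre product for constant functions is a product -/
lemma ev_prod (c : ι → k) : Nonempty (Ev f B (fun i => algebraMap k B (c i)) ≃ₐ[k]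
    B ⊗[k] (MvPolynomial σ k ⧸ Ideal.span (Set.range fun i => f i - C (c i)))) := by
  let I : Ideal (MvPolynomial σ k) := Ideal.span (Set.range fun i => f i - C (c i))
  let b : ι → B := fun i => algebraMap k B (c i)
  let q : MvPolynomial σ k →ₐ[k] (MvPolynomial σ k ⧸ I) := Ideal.Quotient.mkₐ k I
  have hq : ∀ i, q (f i) = algebraMap k _ (c i) := by
    intro i
    have h : q (f i - C (c i)) = 0 := Ideal.Quotient.eq_zero_iff_mem.mpr (Ideal.subset_span ⟨i, rfl⟩)
    rw [map_sub, ← algebraMap_eq, AlgHom.commutes, sub_eq_zero] at h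
    exact h
  let e1 : B →ₐ[k] B ⊗[k] (MvPolynomial σ k ⧸ I) := Algebra.TensorProduct.includeLeft
  let e2 : (MvPolynomial σ k ⧸ I) →ₐ[k] B ⊗[k] (MvPolynomial σ k ⧸ I) :=
    Algebra.TensorProduct.includeRight
  let y : σ → B ⊗[k] (MvPolynomial σ k ⧸ I) := fun v => e2 (q (X v))
  have hy : ∀ p, aeval y p = e2 (q p) := by
    intro p
    have h : aeval y = e2.comp q := by
      apply MvPolynomial.algHom_ext
      intro v
      rw [aeval_X]
      rfl
    rw [h]
    rfl
  obtain ⟨g, hg⟩ : ∃ g : (MvPolynomial σ k ⧸ I) →ₐ[k] Ev f B b, ∀ p, g (q p) = aeval (evx f b) p :=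
    ⟨Ideal.Quotient.liftₐ I (aeval (evx f b)) (by
      have h1 : I ≤ RingHom.ker (aeval (evx f b)) := by
        rw [Ideal.span_le]
        rintro _ ⟨i, rfl⟩
        change aeval (evx f b) (f i - C (c i)) = 0
        have h2 : aeval (evx f b) (C (c i)) = evB f b (algebraMap k B (c i)) := by
          rw [AlgHom.commutes]
          exact (aeval (evx f b)).commutes (c i)
        rw [map_sub, ev_rel, h2, sub_self]
      exact fun a ha => h1 ha), fun p => rfl⟩
  let G : B ⊗[k] (MvPolynomial σ k ⧸ I) →ₐ[k] Ev f B b :=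
    Algebra.TensorProduct.lift (evB f b) g (fun _ _ => Commute.all _ _)
  have hG1 : ∀ a, G (e1 a) = evB f b a := fun a => by
    change Algebra.TensorProduct.lift _ _ _ (a ⊗ₜ 1) = _
    rw [Algebra.TensorProduct.lift_tmul, map_one, mul_one]
  have hG2 : ∀ z, G (e2 z) = g z := fun z => by
    change Algebra.TensorProduct.lift _ _ _ (1 ⊗ₜ z) = _
    rw [Algebra.TensorProduct.lift_tmul, map_one, one_mul]
  refine ev_iso (b := b) e1 y ?_ G hG1 ?_ ?_
  · intro i
    rw [hy, hq, AlgHom.commutes]
    exact (AlgHom.commutes e1 (c i)).symm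
  · intro v
    rw [hG2, hg, aeval_X]
  · intro φ h1 h2 z
    have h3 : φ = AlgHom.id k _ := by
      apply Algebra.TensorProduct.ext
      · apply AlgHom.ext
        exact h1
      · apply Ideal.Quotient.algHom_ext
        apply MvPolynomial.algHom_ext
        exact h2
    rw [h3]
    rfl

end

section comp

variable {k : Type} [Field k] {σ ι : Type} (f : ι → MvPolynomial σ k)
  (S : Set (MvPolynomial ι k))

/-- the inverse image of a closed subscheme -/
lemma ev_comp : Nonempty (Ev f (MvPolynomial ι k ⧸ Ideal.span S)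
    (fun i => Ideal.Quotient.mk (Ideal.span S) (X i)) ≃ₐ[k]
      (MvPolynomial σ k ⧸ Ideal.span (aeval f '' S))) := by
  let q : MvPolynomial ι k →ₐ[k] (MvPolynomial ι k ⧸ Ideal.span S) := Ideal.Quotient.mkₐ k _
  have hqs : Function.Surjective q := Ideal.Quotient.mkₐ_surjective k _
  let π : MvPolynomial σ k →ₐ[k] (MvPolynomial σ k ⧸ Ideal.span (aeval f '' S)) :=
    Ideal.Quotient.mkₐ k _
  have hπs : Function.Surjective π := Ideal.Quotient.mkₐ_surjective k _
  let b : ι → (MvPolynomial ι k ⧸ Ideal.span S) := fun i => q (X i)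
  obtain ⟨d, hd⟩ : ∃ d : (MvPolynomial ι k ⧸ Ideal.span S) →ₐ[k]
      (MvPolynomial σ k ⧸ Ideal.span (aeval f '' S)), ∀ p, d (q p) = π (aeval f p) :=
    ⟨Ideal.Quotient.liftₐ _ (π.comp (aeval f)) (by
      have h1 : Ideal.span S ≤ RingHom.ker (π.comp (aeval f)) := by
        rw [Ideal.span_le]
        intro s hs
        exact Ideal.Quotient.eq_zero_iff_mem.mpr (Ideal.subset_span ⟨s, hs, rfl⟩)
      exact fun a ha => h1 ha), fun p => rfl⟩
  have he : ∀ p : MvPolynomial ι k, aeval (evx f b) (aeval f p) = evB f b (q p) := by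
    intro p
    have h : (aeval (evx f b)).comp (aeval f) = (evB f b).comp q := by
      apply MvPolynomial.algHom_ext
      intro i
      rw [AlgHom.comp_apply, aeval_X, ev_rel]
      rfl
    exact congrArg (fun φ : MvPolynomial ι k →ₐ[k] _ => φ p) h
  obtain ⟨G, hG⟩ : ∃ G : (MvPolynomial σ k ⧸ Ideal.span (aeval f '' S)) →ₐ[k] Ev f _ b,
      ∀ p, G (π p) = aeval (evx f b) p :=
    ⟨Ideal.Quotient.liftₐ _ (aeval (evx f b)) (by
      have h1 : Ideal.span (aeval f '' S) ≤ RingHom.ker (aeval (evx f b)) := by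
        rw [Ideal.span_le]
        rintro _ ⟨s, hs, rfl⟩
        change aeval (evx f b) (aeval f s) = 0
        rw [he]
        have h2 : q s = 0 := Ideal.Quotient.eq_zero_iff_mem.mpr (Ideal.subset_span hs)
        rw [h2, map_zero]
      exact fun a ha => h1 ha), fun p => rfl⟩
  refine ev_iso (b := b) d (fun v => π (X v)) ?_ G ?_ ?_ ?_
  · intro i
    have h : aeval (fun v => π (X v)) = π := by
      apply MvPolynomial.algHom_ext
      intro v
      rw [aeval_X]
    rw [h]
    change π (f i) = d (q (X i))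
    rw [hd, aeval_X]
  · intro a
    obtain ⟨p, rfl⟩ := hqs a
    rw [hd, hG, he]
  · intro v
    rw [hG, aeval_X]
  · intro φ h1 h2 z
    have h3 : φ = AlgHom.id k _ := by
      apply Ideal.Quotient.algHom_ext
      apply MvPolynomial.algHom_ext
      exact h2
    rw [h3]
    rfl

end comp

end Pool.Agent.W5h68.SP
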