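import Pool.Agent.W5h68.SP.Ev2
import Pool.Agent.W5h68.SP.Cl
import Pool.Agent.W5h68.SP.Dm
import Pool.Agent.Z125.UN.Dim2

/-!
# Inverse images under tuples of semi-invariant polynomials
-/

set_option autoImplicit false

open MvPolynomial TensorProduct Pool.Agent.Z125.UN

namespace Pool.Agent.W5h68.SP

/-- Moreover the property holds for products, and it descends along the coverings `s ^ d = u` for
units `u`. -/
structure ClK (k : Type) [Field k] (Q : (A : Type) → [CommRing A] → [Algebra k A] → Prop) : Prop
    extends Cl k Q where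
  prod : ∀ {A B : Type} [CommRing A] [Algebra k A] [Algebra.FiniteType k A] [CommRing B]
    [Algebra k B] [Algebra.FiniteType k B], Q A → Q B → Q (A ⊗[k] B)
  cyc : ∀ {A : Type} [CommRing A] [Algebra k A] [Algebra.FiniteType k A] (d : ℕ) (u : A), 0 < d →
    IsUnit u → Q (Cyc A d u) → Q A

section

variable {k : Type} [Field k] {Q : (A : Type) → [CommRing A] → [Algebra k A] → Prop}
  {σ ι : Type} {f : ι → MvPolynomial σ k} {d : ι → ℕ}

/-- the condition on the base -/
def KG (Q : (A : Type) → [CommRing A] → [Algebra k A] → Prop) (d : ι → ℕ) :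
    List ι → ∀ (B : Type) [CommRing B] [Algebra k B], (ι → B) → Prop
  | [] => fun B _ _ _ => Q B
  | i :: l => fun B _ _ b => KG Q d l (B ⧸ Ideal.span {b i}) (fun j => Ideal.Quotient.mk _ (b j)) ∧
      KG Q d l (Cyc (Localization.Away (b i)) (d i) (algebraMap B _ (b i)))
        (fun j => cycA (k := k) _ _ (algebraMap B (Localization.Away (b i)) (b j)))

/-- the fibres -/
def Fib (Q : (A : Type) → [CommRing A] → [Algebra k A] → Prop) (f : ι → MvPolynomial σ k) : Prop :=
  ∀ c : ι → k, (∀ i, c i = 0 ∨ c i = 1) →
    Q (MvPolynomial σ k ⧸ Ideal.span (Set.range fun i => f i - C (c i)))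

variable (hQ : ClK k Q) (hF : Fib Q f) (hM : Multi f d)

include hQ hF in
lemma q_const [Finite σ] {B : Type} [CommRing B] [Algebra k B] [Algebra.FiniteType k B]
    (b : ι → B) (hb : ∀ i, b i = 0 ∨ b i = 1) (hB : Q B) : Q (Ev f B b) := by
  classical
  have h1 : ∀ i, ∃ c : k, (c = 0 ∨ c = 1) ∧ b i = algebraMap k B c := by
    intro i
    rcases hb i with h | h
    · exact ⟨0, Or.inl rfl, by rw [h, map_zero]⟩
    · exact ⟨1, Or.inr rfl, by rw [h, map_one]⟩
  choose c hc hbc using h1
  have h2 : b = fun i => algebraMap k B (c i) := funext hbc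
  subst h2
  obtain ⟨e⟩ := ev_prod (f := f) (B := B) c
  have hft : Algebra.FiniteType k (B ⊗[k] (MvPolynomial σ k ⧸
      Ideal.span (Set.range fun i => f i - C (c i)))) :=
    Algebra.FiniteType.trans (S := B) inferInstance inferInstance
  exact hQ.iso e.symm (hQ.prod hB (hF c hc))

include hQ hF hM in
lemma q_twist [Finite σ] {B : Type} [CommRing B] [Algebra k B] [Algebra.FiniteType k B] (hB : Q B)
    (s : Finset ι) : ∀ b : ι → B, (∀ i ∉ s, b i = 0 ∨ b i = 1) →
      (∀ i ∈ s, b i = 0 ∨ ∃ u : Bˣ, b i = (u : B) ^ d i) → Q (Ev f B b) := by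
  classical
  induction s using Finset.induction_on with
  | empty => exact fun b hb _ => q_const hQ hF b (fun i => hb i (Finset.notMem_empty i)) hB
  | insert i₀ s hi₀ ih =>
    intro b hb hb'
    rcases hb' i₀ (Finset.mem_insert_self _ _) with h | ⟨u, hu⟩
    · refine ih b (fun i hi => ?_) (fun i hi => hb' i (Finset.mem_insert_of_mem hi))
      by_cases h1 : i = i₀
      · rw [h1]
        exact Or.inl h
      · exact hb i (by rw [Finset.mem_insert]; tauto)
    · obtain ⟨e⟩ := ev_twist hM i₀ u hu
      have h3 : ∀ b' : ι → B, b' i₀ = 1 → (∀ i, i ≠ i₀ → b' i = b i) → Q (Ev f B b') := by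
        intro b' h4 h5
        refine ih _ (fun i hi => ?_) (fun i hi => ?_)
        · by_cases h1 : i = i₀
          · rw [h1, h4]
            exact Or.inr rfl
          · rw [h5 i h1]
            exact hb i (by rw [Finset.mem_insert]; tauto)
        · have h1 : i ≠ i₀ := fun h => hi₀ (h ▸ hi)
          rw [h5 i h1]
          exact hb' i (Finset.mem_insert_of_mem hi)
      exact hQ.iso e.symm (h3 _ (Function.update_self _ _ _)
        (fun i hi => Function.update_of_ne hi _ _))

include hQ hF hM in
/-- The inverse image of a closed subscheme under a tuple of semi-invariant polynomials. -/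
theorem q_main [Finite σ] [Finite ι] (hd : ∀ i, 0 < d i) (l : List ι) :
    ∀ (B : Type) [CommRing B] [Algebra k B] [Algebra.FiniteType k B] (b : ι → B),
      (∀ i ∉ l, b i = 0 ∨ ∃ u : Bˣ, b i = (u : B) ^ d i) → KG Q d l B b → Q (Ev f B b) := by
  induction l with
  | nil =>
    intro B _ _ _ b hb hB
    have := Fintype.ofFinite ι
    exact q_twist hQ hF hM hB Finset.univ b (fun i hi => absurd (Finset.mem_univ i) hi)
      (fun i _ => hb i List.not_mem_nil)
  | cons i l ih =>
    intro B _ _ _ b hb hB
    obtain ⟨hB1, hB2⟩ := hB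
    refine hQ.total (evB f b (b i)) ?_ ?_
    · obtain ⟨e⟩ := ev_quot (f := f) (b := b) (b i)
      refine hQ.iso e (ih _ _ (fun j hj => ?_) hB1)
      by_cases h1 : j = i
      · left
        rw [h1]
        exact Ideal.Quotient.eq_zero_iff_mem.mpr (Ideal.mem_span_singleton_self _)
      · rcases hb j (by rw [List.mem_cons]; tauto) with h2 | ⟨u, h2⟩
        · left
          rw [h2, map_zero]
        · right
          refine ⟨Units.map (Ideal.Quotient.mk (Ideal.span {b i}) : B →* _) u, ?_⟩
          rw [h2, map_pow]
          rfl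
    · obtain ⟨e⟩ := ev_away (f := f) (b := b) (b i)
      have hft : Algebra.FiniteType k (Localization.Away (b i)) :=
        Algebra.FiniteType.trans (S := B) inferInstance inferInstance
      refine hQ.iso e ?_
      have hu : IsUnit (algebraMap B (Localization.Away (b i)) (b i)) :=
        IsLocalization.Away.algebraMap_isUnit _
      obtain ⟨e2⟩ := ev_cyc (f := f) (b := fun j => algebraMap B (Localization.Away (b i)) (b j))
        (d i) (algebraMap B (Localization.Away (b i)) (b i))
      refine hQ.cyc (d i) _ (hd i) (hu.map (evB f fun j => algebraMap B (Localization.Away (b i)) (b j)))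
        (hQ.iso e2 (ih _ _ (fun j hj => ?_) hB2))
      by_cases h1 : j = i
      · right
        subst h1
        have h2 : IsUnit (cycs (d j) (algebraMap B (Localization.Away (b j)) (b j))) := by
          have h3 : IsUnit (cycs (d j) (algebraMap B (Localization.Away (b j)) (b j)) ^ d j) := by
            rw [cyc_rel (k := k)]
            exact hu.map (cycA (k := k) (d j) (algebraMap B (Localization.Away (b j)) (b j)))
          exact (isUnit_pow_iff (hd j).ne').mp h3
        exact ⟨h2.unit, (cyc_rel (k := k) (d j) _).symm⟩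
      · rcases hb j (by rw [List.mem_cons]; tauto) with h2 | ⟨u, h2⟩
        · left
          rw [h2, map_zero, map_zero]
        · right
          refine ⟨Units.map ((cycA (k := k) (d i) (algebraMap B (Localization.Away (b i)) (b i))) :
            _ →* _) (Units.map ((algebraMap B (Localization.Away (b i))) :
              B →* Localization.Away (b i)) u), ?_⟩
          rw [h2, map_pow, map_pow]
          rfl

/-- the dimension of a cyclic covering -/
lemma cyc_dim {A : Type} [CommRing A] (d : ℕ) (hd : 0 < d) (u : A) :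
    ringKrullDim (Cyc A d u) ≤ ringKrullDim A := by
  refine dim_integral ((Ideal.Quotient.mk _).comp Polynomial.C)
    (Polynomial.Monic.quotient_isIntegral (Polynomial.monic_X_pow_sub_C u hd.ne')
      (Ideal.mem_span_singleton_self _))

lemma kg_dim {n : ℕ} (h : ∀ (A : Type) [CommRing A] [Algebra k A] [Algebra.FiniteType k A],
    ringKrullDim A ≤ n → Q A) (hd : ∀ i, 0 < d i) (l : List ι) :
    ∀ (B : Type) [CommRing B] [Algebra k B] [Algebra.FiniteType k B] (b : ι → B),
      ringKrullDim B ≤ n → KG Q d l B b := by
  induction l with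
  | nil => exact fun B _ _ _ b hB => h B hB
  | cons i l ih =>
    intro B _ _ _ b hB
    have hft : Algebra.FiniteType k (Localization.Away (b i)) :=
      Algebra.FiniteType.trans (S := B) inferInstance inferInstance
    exact ⟨ih _ _ ((ringKrullDim_quotient_le _).trans hB),
      ih _ _ ((cyc_dim _ (hd i) _).trans ((dim_away _).trans hB))⟩

include hQ hF hM in
/-- Inverse images of schemes of dimension at most `n`. -/
theorem q_inverse [Finite σ] [Finite ι] {n : ℕ}
    (h : ∀ (A : Type) [CommRing A] [Algebra k A] [Algebra.FiniteType k A], ringKrullDim A ≤ n → Q A)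
    (hd : ∀ i, 0 < d i) (S : Set (MvPolynomial ι k))
    (hS : ringKrullDim (MvPolynomial ι k ⧸ Ideal.span S) ≤ n) :
    Q (MvPolynomial σ k ⧸ Ideal.span (aeval f '' S)) := by
  have := Fintype.ofFinite ι
  obtain ⟨e⟩ := ev_comp f S
  exact hQ.iso e (q_main hQ hF hM hd Finset.univ.toList _ _
    (fun i hi => absurd (Finset.mem_toList.mpr (Finset.mem_univ i)) hi) (kg_dim h hd _ _ _ hS))

end

end Pool.Agent.W5h68.SP
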