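import Pool.Agent.W5h68.SP.FmDefs
import Pool.Agent.W5h68.SP.Gt

/-!
# Read-once formulas
-/

set_option autoImplicit false

open MvPolynomial TensorProduct Pool.Agent.Z125.UN

namespace Pool.Agent.W5h68.SP

section act

variable {k : Type} [Field k]

lemma prod_zpow' {ι D : Type} [CommGroup D] (t : D) (s : Finset ι) (a : ι → ℤ) :
    ∏ i ∈ s, t ^ a i = t ^ ∑ i ∈ s, a i := by
  classical
  induction s using Finset.induction_on with
  | empty => rw [Finset.prod_empty, Finset.sum_empty, zpow_zero]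
  | insert i s hi ih => rw [Finset.prod_insert hi, Finset.sum_insert hi, zpow_add, ih]

/-- weighted homogeneous polynomials at multiples -/
lemma aeval_whom {ι : Type} {w : ι → ℤ} {h : MvPolynomial ι k} {e : ℤ}
    (hw : IsWeightedHomogeneous w h e) {D : Type} [CommRing D] [Algebra k D] (t : Dˣ) (z : ι → D) :
    aeval (fun i => ((t ^ w i : Dˣ) : D) * z i) h = ((t ^ e : Dˣ) : D) * aeval z h := by
  rw [aeval_def, aeval_def, eval₂_eq, eval₂_eq, Finset.mul_sum]
  refine Finset.sum_congr rfl fun s hs => ?_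
  have h1 : ∑ i ∈ s.support, (s i : ℤ) * w i = e := by
    have h2 := hw (mem_support_iff.mp hs)
    rw [Finsupp.weight_apply, Finsupp.sum] at h2
    rw [← h2]
    exact Finset.sum_congr rfl fun i _ => by rw [nsmul_eq_mul]
  have h3 : ∏ i ∈ s.support, (((t ^ w i : Dˣ) : D) * z i) ^ s i =
      ((t ^ e : Dˣ) : D) * ∏ i ∈ s.support, z i ^ s i := by
    rw [Finset.prod_congr rfl fun i _ => mul_pow _ (z i) (s i), Finset.prod_mul_distrib]
    congr 1
    have h4 : ∏ i ∈ s.support, ((t ^ w i : Dˣ) : D) ^ s i =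
        ((∏ i ∈ s.support, t ^ ((s i : ℤ) * w i) : Dˣ) : D) := by
      rw [Units.coe_prod]
      refine Finset.prod_congr rfl fun i _ => ?_
      rw [mul_comm, zpow_mul, zpow_natCast, Units.val_pow_eq_pow_val]
    rw [h4, prod_zpow', h1]
  rw [h3]
  ring

/-- The polynomial `f` is semi-invariant of degree `d` under an action of the multiplicative group. -/
def Semi {σ : Type} (f : MvPolynomial σ k) (d : ℤ) : Prop :=
  ∀ (B : Type) [CommRing B] [Algebra k B] (s : Bˣ),
    ∃ φ : MvPolynomial σ B ≃ₐ[B] MvPolynomial σ B,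
      φ (MvPolynomial.map (algebraMap k B) f) =
        C ((s ^ d : Bˣ) : B) * MvPolynomial.map (algebraMap k B) f

lemma semi_zpow {σ : Type} {f : MvPolynomial σ k} {d : ℤ} (h : Semi f d) (c : ℤ) :
    Semi f (c * d) := by
  intro B _ _ s
  obtain ⟨φ, hφ⟩ := h B (s ^ c)
  exact ⟨φ, by rw [hφ, zpow_mul]⟩

lemma semi_var : Semi (X () : MvPolynomial Unit k) 1 := by
  intro B _ _ s
  let F : MvPolynomial Unit B →ₐ[B] MvPolynomial Unit B := aeval fun v => C (s : B) * X v
  let G : MvPolynomial Unit B →ₐ[B] MvPolynomial Unit B :=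
    aeval fun v => C ((s⁻¹ : Bˣ) : B) * X v
  have hFC : ∀ a : B, F (C a) = C a := fun a => F.commutes a
  have hGC : ∀ a : B, G (C a) = C a := fun a => G.commutes a
  refine ⟨AlgEquiv.ofAlgHom F G ?_ ?_, ?_⟩
  · apply MvPolynomial.algHom_ext
    intro v
    change F (G (X v)) = X v
    change F (aeval (fun v => C ((s⁻¹ : Bˣ) : B) * X v) (X v)) = X v
    rw [aeval_X, map_mul, hFC]
    change _ * aeval (fun v => C (s : B) * X v) (X v) = X v
    rw [aeval_X, ← mul_assoc, ← C_mul, s.inv_mul, C_1, one_mul]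
  · apply MvPolynomial.algHom_ext
    intro v
    change G (F (X v)) = X v
    change G (aeval (fun v => C (s : B) * X v) (X v)) = X v
    rw [aeval_X, map_mul, hGC]
    change _ * aeval (fun v => C ((s⁻¹ : Bˣ) : B) * X v) (X v) = X v
    rw [aeval_X, ← mul_assoc, ← C_mul, s.mul_inv, C_1, one_mul]
  · change F (MvPolynomial.map (algebraMap k B) (X ())) = _
    rw [map_X, zpow_one]
    change aeval (fun v => C (s : B) * X v) (X ()) = _
    rw [aeval_X]

/-- the base change of a homomorphism of polynomial rings -/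
noncomputable def bch {σ τ : Type} (B : Type) [CommRing B] [Algebra k B]
    (e : MvPolynomial σ k →ₐ[k] MvPolynomial τ k) : MvPolynomial σ B →ₐ[B] MvPolynomial τ B :=
  aeval fun v => MvPolynomial.map (algebraMap k B) (e (X v))

lemma bch_map {σ τ : Type} (B : Type) [CommRing B] [Algebra k B]
    (e : MvPolynomial σ k →ₐ[k] MvPolynomial τ k) (p : MvPolynomial σ k) :
    bch B e (MvPolynomial.map (algebraMap k B) p) = MvPolynomial.map (algebraMap k B) (e p) := by
  have h : ((bch B e).restrictScalars k).comp (mapAlgHom (Algebra.ofId k B)) =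
      (mapAlgHom (Algebra.ofId k B)).comp e := by
    apply MvPolynomial.algHom_ext
    intro v
    change bch B e (MvPolynomial.map (algebraMap k B) (X v)) =
      MvPolynomial.map (algebraMap k B) (e (X v))
    rw [map_X, bch, aeval_X]
  exact congrArg (fun φ : MvPolynomial σ k →ₐ[k] MvPolynomial τ B => φ p) h

lemma semi_auto {σ τ : Type} (e : MvPolynomial σ k ≃ₐ[k] MvPolynomial τ k) {f : MvPolynomial σ k}
    {d : ℤ} (h : Semi f d) : Semi (e f) d := by
  intro B _ _ s
  obtain ⟨φ, hφ⟩ := h B s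
  let F : MvPolynomial σ B →ₐ[B] MvPolynomial τ B := bch B (e : MvPolynomial σ k →ₐ[k] _)
  let G : MvPolynomial τ B →ₐ[B] MvPolynomial σ B := bch B (e.symm : MvPolynomial τ k →ₐ[k] _)
  have hF : ∀ p, F (MvPolynomial.map (algebraMap k B) p) = MvPolynomial.map (algebraMap k B) (e p) :=
    bch_map B _
  have hG : ∀ p, G (MvPolynomial.map (algebraMap k B) p) =
      MvPolynomial.map (algebraMap k B) (e.symm p) := bch_map B _
  have hX : ∀ (ν : Type) (v : ν), (X v : MvPolynomial ν B) =
      MvPolynomial.map (algebraMap k B) (X v) := fun ν v => (map_X _ _).symm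
  let E : MvPolynomial σ B ≃ₐ[B] MvPolynomial τ B := AlgEquiv.ofAlgHom F G
    (by
      apply MvPolynomial.algHom_ext
      intro v
      change F (G (X v)) = X v
      rw [hX, hG, hF, AlgEquiv.apply_symm_apply])
    (by
      apply MvPolynomial.algHom_ext
      intro v
      change G (F (X v)) = X v
      rw [hX, hF, hG, AlgEquiv.symm_apply_apply])
  refine ⟨(E.symm.trans φ).trans E, ?_⟩
  change F (φ (G (MvPolynomial.map (algebraMap k B) (e f)))) = _
  rw [hG, AlgEquiv.symm_apply_apply, hφ, map_mul, hF]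
  congr 1
  exact F.commutes _

section sigma

variable {I : Type} {σ : I → Type} {B : Type} [CommRing B]

/-- automorphisms of the blocks of variables -/
lemma blocks (φ : ∀ i, MvPolynomial (σ i) B ≃ₐ[B] MvPolynomial (σ i) B) :
    ∃ Φ : MvPolynomial (Σ i, σ i) B ≃ₐ[B] MvPolynomial (Σ i, σ i) B,
      ∀ i p, Φ (rename (Sigma.mk i) p) = rename (Sigma.mk i) (φ i p) := by
  let F : MvPolynomial (Σ i, σ i) B →ₐ[B] MvPolynomial (Σ i, σ i) B :=
    aeval fun v => rename (Sigma.mk v.1) (φ v.1 (X v.2))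
  let G : MvPolynomial (Σ i, σ i) B →ₐ[B] MvPolynomial (Σ i, σ i) B :=
    aeval fun v => rename (Sigma.mk v.1) ((φ v.1).symm (X v.2))
  have hF : ∀ i p, F (rename (Sigma.mk i) p) = rename (Sigma.mk i) (φ i p) := by
    intro i p
    have h : F.comp (rename (Sigma.mk i)) =
        (rename (Sigma.mk i)).comp (φ i : MvPolynomial (σ i) B →ₐ[B] MvPolynomial (σ i) B) := by
      apply MvPolynomial.algHom_ext
      intro v
      rw [AlgHom.comp_apply, rename_X, AlgHom.comp_apply]
      change aeval _ (X (Sigma.mk i v)) = _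
      rw [aeval_X]
      rfl
    exact congrArg (fun ψ : MvPolynomial (σ i) B →ₐ[B] _ => ψ p) h
  have hG : ∀ i p, G (rename (Sigma.mk i) p) = rename (Sigma.mk i) ((φ i).symm p) := by
    intro i p
    have h : G.comp (rename (Sigma.mk i)) =
        (rename (Sigma.mk i)).comp ((φ i).symm : MvPolynomial (σ i) B →ₐ[B] MvPolynomial (σ i) B) := by
      apply MvPolynomial.algHom_ext
      intro v
      rw [AlgHom.comp_apply, rename_X, AlgHom.comp_apply]
      change aeval _ (X (Sigma.mk i v)) = _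
      rw [aeval_X]
      rfl
    exact congrArg (fun ψ : MvPolynomial (σ i) B →ₐ[B] _ => ψ p) h
  have hX : ∀ (i : I) (v : σ i), (X (⟨i, v⟩ : Σ i, σ i) : MvPolynomial (Σ i, σ i) B) =
      rename (Sigma.mk i) (X v) := fun i v => (rename_X _ _).symm
  refine ⟨AlgEquiv.ofAlgHom F G ?_ ?_, hF⟩
  · apply MvPolynomial.algHom_ext
    rintro ⟨i, v⟩
    change F (G (X ⟨i, v⟩)) = X ⟨i, v⟩
    rw [hX, hG, hF, AlgEquiv.apply_symm_apply]
  · apply MvPolynomial.algHom_ext
    rintro ⟨i, v⟩
    change G (F (X ⟨i, v⟩)) = X ⟨i, v⟩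
    rw [hX, hF, hG, AlgEquiv.symm_apply_apply]

end sigma

variable {r : ℕ} {σ : Fin r → Type} {f : ∀ i, MvPolynomial (σ i) k}

/-- the tuple of polynomials in disjoint sets of variables -/
noncomputable abbrev tup (f : ∀ i, MvPolynomial (σ i) k) (i : Fin r) :
    MvPolynomial (Σ i, σ i) k := rename (Sigma.mk i) (f i)

lemma multi_tup {d : Fin r → ℕ} (h : ∀ i, Semi (f i) (d i)) : Multi (tup f) d := by
  classical
  intro B _ _ s i
  choose φ hφ using fun j => h j B (if j = i then s else 1)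
  obtain ⟨Φ, hΦ⟩ := blocks φ
  refine ⟨Φ, fun j => ?_⟩
  rw [tup, map_rename, hΦ, hφ, map_mul, rename_C]
  congr 2
  by_cases hj : j = i
  · subst hj
    rw [if_pos rfl, if_pos rfl, zpow_natCast, Units.val_pow_eq_pow_val]
  · rw [if_neg hj, if_neg hj, one_zpow, Units.val_one]

lemma semi_gate {d : Fin r → ℕ} (hs : ∀ i, Semi (f i) (d i))
    {h : MvPolynomial (Fin r) k} {w : Fin r → ℤ} {e : ℤ} (hw : IsWeightedHomogeneous w h e) :
    Semi (aeval (tup f) h) ((∏ i, d i : ℕ) * e) := by
  classical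
  intro B _ _ s
  let N : ℕ := ∏ i, d i
  have hN : ∀ i, ∃ c : ℤ, c * d i = N * w i := by
    intro i
    refine ⟨w i * (∏ j ∈ Finset.univ.erase i, d j : ℕ), ?_⟩
    rw [mul_assoc, ← Nat.cast_mul, Finset.prod_erase_mul _ _ (Finset.mem_univ i), mul_comm]
  choose c hc using hN
  choose φ hφ using fun j => semi_zpow (hs j) (c j) B s
  obtain ⟨Φ, hΦ⟩ := blocks φ
  refine ⟨Φ, ?_⟩
  have hm : ∀ p : MvPolynomial (Fin r) k, MvPolynomial.map (algebraMap k B) (aeval (tup f) p) =
      aeval (fun i => MvPolynomial.map (algebraMap k B) (tup f i)) p := by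
    intro p
    have h1 : (mapAlgHom (Algebra.ofId k B)).comp (aeval (tup f)) =
        aeval (fun i => MvPolynomial.map (algebraMap k B) (tup f i)) := by
      apply MvPolynomial.algHom_ext
      intro v
      rw [AlgHom.comp_apply, aeval_X, aeval_X]
      rfl
    exact congrArg (fun ψ : MvPolynomial (Fin r) k →ₐ[k] _ => ψ p) h1
  have hΦm : ∀ p : MvPolynomial (Fin r) k,
      Φ (aeval (fun i => MvPolynomial.map (algebraMap k B) (tup f i)) p) =
      aeval (fun i => Φ (MvPolynomial.map (algebraMap k B) (tup f i))) p := by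
    intro p
    have h1 : ((Φ : MvPolynomial (Σ i, σ i) B →ₐ[B] _).restrictScalars k).comp
        (aeval (fun i => MvPolynomial.map (algebraMap k B) (tup f i))) =
        aeval (fun i => Φ (MvPolynomial.map (algebraMap k B) (tup f i))) := by
      apply MvPolynomial.algHom_ext
      intro v
      rw [AlgHom.comp_apply, aeval_X, aeval_X]
      rfl
    exact congrArg (fun ψ : MvPolynomial (Fin r) k →ₐ[k] _ => ψ p) h1
  let t : (MvPolynomial (Σ i, σ i) B)ˣ := Units.map
    ((C : B →+* MvPolynomial (Σ i, σ i) B) : B →* MvPolynomial (Σ i, σ i) B) (s ^ N)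
  have h1 : ∀ i, Φ (MvPolynomial.map (algebraMap k B) (tup f i)) =
      ((t ^ w i : (MvPolynomial (Σ i, σ i) B)ˣ) : MvPolynomial (Σ i, σ i) B) *
        MvPolynomial.map (algebraMap k B) (tup f i) := by
    intro i
    rw [tup, map_rename, hΦ, hφ, map_mul, rename_C]
    congr 1
    rw [hc i, ← map_zpow]
    change _ = C (((s ^ N) ^ w i : Bˣ) : B)
    rw [← zpow_natCast, ← zpow_mul]
  rw [hm, hΦm, funext h1, aeval_whom hw]
  congr 1
  rw [← map_zpow]
  change C (((s ^ N) ^ e : Bˣ) : B) = _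
  rw [← zpow_natCast, ← zpow_mul]

end act

end Pool.Agent.W5h68.SP
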