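import Pool.Agent.W5h68.SP.Str
import Pool.Agent.W5h68.SP.Bin

/-!
# Inverse images of cones under monomial maps
-/

set_option autoImplicit false

open MvPolynomial Pool.Agent.Z125.UN Pool.Agent.Y116.UV

namespace Pool.Agent.W5h68.SP

section torus

variable {k : Type} [Field k] {m : ℕ} {ι : Type} (g : ι → MvPolynomial (Fin m) k)
  (J : Set (Fin m))

open Classical in
/-- the relations of the open part of the affine part of the cone -/
noncomputable def So (l₀ : Fin m) : Set (AddMonoidAlgebra k (J →₀ ℤ)) :=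
  insert (xu k J l₀ - 1) (Set.range fun j => aeval (xu k J) (g j))

lemma so_dim {l₀ : Fin m} : ringKrullDim (AddMonoidAlgebra k (J →₀ ℤ) ⧸ Ideal.span (So g J l₀)) ≤
    ringKrullDim (Chart g l₀) := by
  let q : AddMonoidAlgebra k (J →₀ ℤ) →ₐ[k] (AddMonoidAlgebra k (J →₀ ℤ) ⧸ Ideal.span (So g J l₀)) :=
    Ideal.Quotient.mkₐ k _
  have hq : ∀ x ∈ So g J l₀, q x = 0 := fun x hx =>
    Ideal.Quotient.eq_zero_iff_mem.mpr (Ideal.subset_span hx)
  let φ : Chart g l₀ →ₐ[k] (AddMonoidAlgebra k (J →₀ ℤ) ⧸ Ideal.span (So g J l₀)) :=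
    Ideal.Quotient.liftₐ _ (q.comp (aeval (xu k J))) (by
      have h1 : Ideal.span (insert (X l₀ - 1) (Set.range g)) ≤
          RingHom.ker (q.comp (aeval (xu k J) : MvPolynomial (Fin m) k →ₐ[k] _)) := by
        rw [Ideal.span_le]
        rintro _ (rfl | ⟨j, rfl⟩)
        · change q (aeval (xu k J) (X l₀ - 1)) = 0
          rw [map_sub, aeval_X, map_one]
          exact hq _ (Set.mem_insert _ _)
        · exact hq _ (Set.mem_insert_of_mem _ ⟨j, rfl⟩)
      exact fun a ha => h1 ha)
  have hφ : ∀ p, φ (Ideal.Quotient.mk _ p) = q (aeval (xu k J) p) := fun p => rfl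
  -- the characters
  have h1 : ∀ v : J →₀ ℤ, ∃ a b : MvPolynomial (Fin m) k, IsUnit (aeval (xu k J) a) ∧
      aeval (xu k J) a * gm k v = aeval (xu k J) b := by
    intro v
    induction v using Finsupp.induction_linear with
    | zero => exact ⟨1, 1, by rw [map_one]; exact isUnit_one, by rw [gm_zero, mul_one]⟩
    | add v w hv hw =>
      obtain ⟨a, b, h1, h2⟩ := hv
      obtain ⟨a', b', h3, h4⟩ := hw
      refine ⟨a * a', b * b', ?_, ?_⟩
      · rw [map_mul]
        exact h1.mul h3
      · rw [map_mul, map_mul, gm_add, ← h2, ← h4]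
        ring
    | single l n =>
      obtain ⟨l, hl⟩ := l
      have h2 : ∀ a : ℕ, gm k (Finsupp.single (⟨l, hl⟩ : J) (a : ℤ)) =
          aeval (xu k J) (X l ^ a : MvPolynomial (Fin m) k) := by
        intro a
        rw [map_pow, aeval_X, xu_mem hl, ← gu_val, ← gu_val, ← Units.val_pow_eq_pow_val,
          ← toMul_nsmul, ← map_nsmul, Finsupp.smul_single, nsmul_eq_mul, mul_one]
      obtain ⟨a, rfl | rfl⟩ := n.eq_nat_or_neg
      · exact ⟨1, X l ^ a, by rw [map_one]; exact isUnit_one, by rw [map_one, one_mul, h2]⟩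
      · refine ⟨X l ^ a, 1, ?_, ?_⟩
        · rw [← h2]
          exact gm_unit _
        · rw [← h2, ← gm_add, ← Finsupp.single_add, add_neg_cancel, Finsupp.single_zero, gm_zero,
            map_one]
  refine dim_quasi φ.toRingHom fun d => ?_
  obtain ⟨x, rfl⟩ := Ideal.Quotient.mk_surjective d
  change ∃ c c' : Chart g l₀, IsUnit (φ c) ∧ φ c * q x = φ c'
  induction x using ga_induction with
  | h0 => exact ⟨1, 0, by rw [map_one]; exact isUnit_one, by rw [map_zero, mul_zero, map_zero]⟩
  | h1 r v =>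
    obtain ⟨a, b, h2, h3⟩ := h1 v
    refine ⟨Ideal.Quotient.mk _ a, Ideal.Quotient.mk _ (C r * b), ?_, ?_⟩
    · rw [hφ]
      exact h2.map q
    · have h4 : aeval (xu k J) (C r * b) = aeval (xu k J) a * (algebraMap k _ r * gm k v) := by
        rw [map_mul, ← h3, ← algebraMap_eq, AlgHom.commutes]
        ring
      rw [hφ, hφ, ← map_mul, h4]
  | h2 x y hx hy =>
    obtain ⟨c, c', h2, h3⟩ := hx
    obtain ⟨e, e', h4, h5⟩ := hy
    refine ⟨c * e, c' * e + e' * c, ?_, ?_⟩
    · rw [map_mul]
      exact h2.mul h4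
    · rw [map_mul, map_add, map_add, map_mul, map_mul, ← h3, ← h5]
      ring

end torus

section

variable {k : Type} [Field k] {Q : (A : Type) → [CommRing A] → [Algebra k A] → Prop}
  (hQ : Cl k Q) {n : ℕ} (h : ∀ (A : Type) [CommRing A] [Algebra k A] [Algebra.FiniteType k A],
    ringKrullDim A ≤ n → Q A)
  {m : ℕ} {ι : Type} (g : ι → MvPolynomial (Fin m) k) (hg : ∀ i, ∃ d, (g i).IsHomogeneous d)
  (hd : ringKrullDim (MvPolynomial (Fin m) k ⧸ Ideal.span (Set.range g)) ≤ n + 1)

include hQ h hg hd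

/-- the conclusion for the functions on a torus -/
lemma q_torus {M : Type} [AddCommGroup M] [Module.Finite ℤ M] (J : Set (Fin m))
    (μ : Fin m → M) (y : Fin m → AddMonoidAlgebra k M) (hy : ∀ l ∈ J, y l = gm k (μ l))
    (hy' : ∀ l, l ∉ J → y l = 0) {τ : Type} (b : τ → AddMonoidAlgebra k M) (hb : ∀ t, Bin (b t)) :
    Q (AddMonoidAlgebra k M ⧸ Ideal.span ((Set.range fun j => aeval y (g j)) ∪ Set.range b)) := by
  have hft := ft_ga k M
  by_cases hJ : J = ∅
  · -- all functions are zero
    have hy0 : y = fun _ => 0 := by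
      funext l
      exact hy' l (by rw [hJ]; exact Set.notMem_empty l)
    have h1 : ∀ j, aeval y (g j) = algebraMap k _ (constantCoeff (g j)) := by
      intro j
      rw [hy0]
      exact aeval_zero' _
    by_cases h2 : ∀ j, constantCoeff (g j) = 0
    · have h3 : Ideal.span ((Set.range fun j => aeval y (g j)) ∪ Set.range b) =
          Ideal.span (gmap k (0 : (Fin 0 → ℤ) →+ M) '' (∅ : Set (AddMonoidAlgebra k (Fin 0 → ℤ))) ∪
            Set.range b) := by
        rw [Set.image_empty, Set.empty_union]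
        apply le_antisymm
        · rw [Ideal.span_le]
          rintro _ (⟨j, rfl⟩ | hx)
          · change aeval y (g j) ∈ _
            rw [h1, h2, map_zero]
            exact Ideal.zero_mem _
          · exact Ideal.subset_span hx
        · exact Ideal.span_mono Set.subset_union_right
      refine hQ.iso (Ideal.quotientEquivAlgOfEq k h3).symm ?_
      refine cl_torus_bin hQ _ h ?_ 0 b hb
      have h4 : ringKrullDim (AddMonoidAlgebra k (Fin 0 → ℤ) ⧸
          Ideal.span (∅ : Set (AddMonoidAlgebra k (Fin 0 → ℤ)))) ≤ ringKrullDim k := by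
        refine ringKrullDim_le_of_surjective ((Ideal.Quotient.mk _).comp (algebraMap k _)) ?_
        intro x
        obtain ⟨x, rfl⟩ := Ideal.Quotient.mk_surjective x
        induction x using ga_induction with
        | h0 => exact ⟨0, by rw [map_zero, map_zero]⟩
        | h1 r v =>
          refine ⟨r, ?_⟩
          have h5 : v = 0 := Subsingleton.elim _ _
          rw [h5, gm_zero, mul_one]
          rfl
        | h2 x y hx hy =>
          obtain ⟨a, ha⟩ := hx
          obtain ⟨b, hb⟩ := hy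
          exact ⟨a + b, by rw [map_add, map_add, ha, hb]⟩
      refine h4.trans ?_
      rw [ringKrullDim_eq_zero_of_field]
      exact_mod_cast Nat.zero_le n
    · push Not at h2
      obtain ⟨j, hj⟩ := h2
      refine hQ.zero ?_
      rw [Ideal.Quotient.subsingleton_iff, Ideal.eq_top_iff_one]
      have h3 : aeval y (g j) ∈ Ideal.span ((Set.range fun j => aeval y (g j)) ∪ Set.range b) :=
        Ideal.subset_span (Or.inl ⟨j, rfl⟩)
      rw [h1] at h3
      have h4 := Ideal.mul_mem_left _ (algebraMap k _ (constantCoeff (g j))⁻¹) h3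
      rwa [← map_mul, inv_mul_cancel₀ hj, map_one] at h4
  · obtain ⟨l₀, hl₀⟩ := Set.nonempty_iff_ne_empty.mpr hJ
    have hdim : ringKrullDim (AddMonoidAlgebra k (J →₀ ℤ) ⧸ Ideal.span (So g J l₀)) ≤ n := by
      refine (so_dim g J).trans ?_
      have h1 := (dim_chart hg l₀).trans hd
      have h2 : ((n : WithBot ℕ∞) + 1) = ((n + 1 : ℕ) : WithBot ℕ∞) := by push_cast; rfl
      rw [h2, ENat.WithBot.add_one_le_natCast_iff, ← h2] at h1
      exact ENat.WithBot.lt_add_one_iff.mp h1
    let θ : (J →₀ ℤ) →+ M := Finsupp.liftAddHom fun l => zmultiplesHom M (μ l - μ l₀)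
    have hθ : ∀ l : J, θ (Finsupp.single l 1) = μ l - μ l₀ := by
      intro l
      change Finsupp.liftAddHom _ _ = _
      rw [Finsupp.liftAddHom_apply_single]
      exact one_zsmul _
    have hx : ∀ l, gmap k θ (xu k J l) = gm k (-μ l₀) * y l := by
      intro l
      by_cases hl : l ∈ J
      · rw [xu_mem hl, gmap_gm, hθ, hy l hl, ← gm_add]
        congr 1
        abel
      · rw [xu_not hl, map_zero, hy' l hl, mul_zero]
    have hp : ∀ p : MvPolynomial (Fin m) k, gmap k θ (aeval (xu k J) p) =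
        aeval (fun l => gm k (-μ l₀) * y l) p := by
      intro p
      have h1 : (gmap k θ).comp (aeval (xu k J)) = aeval (fun l => gm k (-μ l₀) * y l) := by
        apply MvPolynomial.algHom_ext
        intro l
        rw [AlgHom.comp_apply, aeval_X, aeval_X, hx]
      rw [← h1]
      rfl
    have h3 : Ideal.span ((Set.range fun j => aeval y (g j)) ∪ Set.range b) =
        Ideal.span (gmap k θ '' So g J l₀ ∪ Set.range b) := by
      apply le_antisymm
      · rw [Ideal.span_le]
        rintro _ (⟨j, rfl⟩ | hx)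
        swap
        · exact Ideal.subset_span (Or.inr hx)
        obtain ⟨d, hd⟩ := hg j
        have h4 : gmap k θ (aeval (xu k J) (g j)) ∈ Ideal.span (gmap k θ '' So g J l₀ ∪
            Set.range b) :=
          Ideal.subset_span (Or.inl ⟨_, Set.mem_insert_of_mem _ ⟨j, rfl⟩, rfl⟩)
        rw [hp, aeval_hom hd] at h4
        have h5 := Ideal.mul_mem_left _ (gm k (μ l₀) ^ d) h4
        rw [← mul_assoc, ← mul_pow, ← gm_add, add_neg_cancel, gm_zero, one_pow, one_mul] at h5
        exact h5
      · rw [Ideal.span_le]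
        rintro _ (⟨x, rfl | ⟨j, rfl⟩, rfl⟩ | hx)
        · have h4 : gmap k θ (xu k J l₀ - 1) = 0 := by
            rw [map_sub, map_one, hx, hy l₀ hl₀, ← gm_add, neg_add_cancel, gm_zero, sub_self]
          rw [h4]
          exact Ideal.zero_mem _
        · obtain ⟨d, hd⟩ := hg j
          change gmap k θ (aeval (xu k J) (g j)) ∈ _
          rw [hp, aeval_hom hd]
          exact Ideal.mul_mem_left _ _ (Ideal.subset_span (Or.inl ⟨j, rfl⟩))
        · exact Ideal.subset_span (Or.inr hx)
    exact hQ.iso (Ideal.quotientEquivAlgOfEq k h3).symm (cl_torus_bin hQ _ h hdim θ b hb)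

omit hQ h hg hd in
lemma xu_monomial {σ : Type} (U : Set σ) (α : σ →₀ ℕ) : (∃ i ∈ α.support, i ∉ U) ∧
    aeval (xu k U) (monomial α (1 : k)) = 0 ∨ (∀ i ∈ α.support, i ∈ U) ∧ ∃ v : U →₀ ℤ,
      aeval (xu k U) (monomial α (1 : k)) = gm k v := by
  classical
  by_cases hl : ∀ i ∈ α.support, i ∈ U
  · right
    refine ⟨hl, ∑ i ∈ α.support.attach, (α i.1) • Finsupp.single (⟨i.1, hl i.1 i.2⟩ : U) (1 : ℤ), ?_⟩
    have h3 : aeval (xu k U) (monomial α (1 : k)) = ∏ i ∈ α.support, xu k U i ^ α i := by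
      rw [aeval_monomial, map_one, one_mul]
      rfl
    rw [h3, ← Finset.prod_attach]
    have h4 : ∀ (s : Finset α.support), ∏ i ∈ s, xu k U i.1 ^ α i.1 =
        gm k (∑ i ∈ s, (α i.1) • Finsupp.single (⟨i.1, hl i.1 i.2⟩ : U) (1 : ℤ)) := by
      intro s
      induction s using Finset.induction_on with
      | empty => rw [Finset.prod_empty, Finset.sum_empty, gm_zero]
      | insert a s ha ih =>
        rw [Finset.prod_insert ha, Finset.sum_insert ha, gm_add, ih, xu_mem (hl a.1 a.2)]
        congr 1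
        rw [← gu_val, ← gu_val, ← Units.val_pow_eq_pow_val, ← toMul_nsmul, ← map_nsmul]
    exact h4 _
  · left
    push Not at hl
    obtain ⟨i, hi, hi'⟩ := hl
    refine ⟨⟨i, hi, hi'⟩, ?_⟩
    rw [aeval_monomial, map_one, one_mul]
    refine Finset.prod_eq_zero hi ?_
    change xu k U i ^ (α i) = 0
    rw [xu_not hi', zero_pow]
    exact Finsupp.mem_support_iff.mp hi

omit hQ h hg hd in
/-- a polynomial with at most two terms on a torus -/
lemma xu_bin {σ : Type} (U : Set σ) (p : MvPolynomial σ k) (hp : p.support.card ≤ 2) :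
    Bin (aeval (xu k U) p) := by
  classical
  -- one monomial
  have h1 : ∀ (α : σ →₀ ℕ) (a : k), ∃ (c : k) (v : U →₀ ℤ),
      aeval (xu k U) (monomial α a) = algebraMap k _ c * gm k v := by
    intro α a
    have h2 : aeval (xu k U) (monomial α a) =
        algebraMap k _ a * aeval (xu k U) (monomial α (1 : k)) := by
      rw [← AlgHom.commutes (aeval (xu k U)), ← map_mul, algebraMap_eq, C_mul_monomial, mul_one]
    rcases xu_monomial (k := k) U α with ⟨-, h3⟩ | ⟨-, v, h3⟩
    · exact ⟨0, 0, by rw [h2, h3, mul_zero, map_zero, zero_mul]⟩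
    · exact ⟨a, v, by rw [h2, h3]⟩
  have h2 : ∀ s : Finset (σ →₀ ℕ), s.card ≤ 2 → Bin (aeval (xu k U) (∑ α ∈ s,
      monomial α (coeff α p))) := by
    intro s hs
    interval_cases hc : s.card
    · rw [Finset.card_eq_zero] at hc
      rw [hc, Finset.sum_empty, map_zero]
      exact ⟨0, 0, 0, 0, by rw [map_zero, zero_mul, add_zero]⟩
    · obtain ⟨α, rfl⟩ := Finset.card_eq_one.mp hc
      rw [Finset.sum_singleton]
      obtain ⟨c, v, h3⟩ := h1 α (coeff α p)
      exact ⟨c, 0, v, 0, by rw [h3, map_zero, zero_mul, add_zero]⟩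
    · obtain ⟨α, β, hαβ, rfl⟩ := Finset.card_eq_two.mp hc
      rw [Finset.sum_pair hαβ, map_add]
      obtain ⟨c, v, h3⟩ := h1 α (coeff α p)
      obtain ⟨d, w, h4⟩ := h1 β (coeff β p)
      exact ⟨c, d, v, w, by rw [h3, h4]⟩
  have h3 := h2 p.support hp
  rwa [support_sum_monomial_coeff] at h3

/-- **Inverse images of cones under monomial maps**, with additional equations with two terms. -/
theorem q_monomial {σ : Type} [Finite σ] (α : Fin m → σ →₀ ℕ) {τ : Type} (b : τ → MvPolynomial σ k)
    (hb : ∀ t, (b t).support.card ≤ 2) :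
    Q (MvPolynomial σ k ⧸ Ideal.span ((Set.range fun i =>
      aeval (fun l => (monomial (α l) 1 : MvPolynomial σ k)) (g i)) ∪ Set.range b)) := by
  let G : ι ⊕ τ → MvPolynomial σ k := Sum.elim (fun i =>
    aeval (fun l => (monomial (α l) 1 : MvPolynomial σ k)) (g i)) b
  have hG : Set.range G = (Set.range fun i =>
      aeval (fun l => (monomial (α l) 1 : MvPolynomial σ k)) (g i)) ∪ Set.range b :=
    Set.Sum.elim_range _ _
  refine hQ.iso (Ideal.quotientEquivAlgOfEq k (by rw [hG])) (hQ.iso (oneE G).symm ?_)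
  refine strat hQ (G := G) ?_ _ ∅ ∅ (ι ⊕ τ) G 1 st_start rfl
  intro U κ' G' w hst
  obtain ⟨e⟩ := st_fin hst
  have hft := ft_ga k (U →₀ ℤ)
  refine hQ.iso e.symm ?_
  let J : Set (Fin m) := {l | ∀ i ∈ (α l).support, i ∈ U}
  let y : Fin m → AddMonoidAlgebra k (U →₀ ℤ) := fun l => aeval (xu k U) (monomial (α l) (1 : k))
  have h1 : (Set.range fun j => aeval (xu k U) (G j)) =
      (Set.range fun j => aeval y (g j)) ∪ Set.range fun t => aeval (xu k U) (b t) := by
    have h2 : (aeval (xu k U)).comp (aeval (fun l => (monomial (α l) 1 : MvPolynomial σ k))) =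
        aeval y := by
      apply MvPolynomial.algHom_ext
      intro l
      rw [AlgHom.comp_apply, aeval_X, aeval_X]
    have h3 : (fun j => aeval (xu k U) (G j)) = Sum.elim (fun j => aeval y (g j))
        (fun t => aeval (xu k U) (b t)) := by
      funext j
      rcases j with j | t
      · rw [← h2]
        rfl
      · rfl
    rw [h3]
    exact Set.Sum.elim_range _ _
  have h4 : ∀ l, ∃ v : U →₀ ℤ, l ∈ J → y l = gm k v := by
    intro l
    rcases xu_monomial (k := k) U (α l) with ⟨⟨i, hi, hi'⟩, -⟩ | ⟨-, v, h3⟩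
    · exact ⟨0, fun h => absurd (h i hi) hi'⟩
    · exact ⟨v, fun _ => h3⟩
  choose μ hμ using h4
  have h2 := q_torus hQ h g hg hd J μ y hμ (by
    intro l hl
    rcases xu_monomial (k := k) U (α l) with ⟨-, h3⟩ | ⟨h3, -⟩
    · exact h3
    · exact absurd h3 hl) (fun t => aeval (xu k U) (b t)) (fun t => xu_bin U (b t) (hb t))
  exact hQ.iso (Ideal.quotientEquivAlgOfEq k (by rw [h1])) h2

end

end Pool.Agent.W5h68.SP
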